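import Pool.Agent.V8H41.DG.Sim

/-!
# The stack machine
-/

set_option autoImplicit false

namespace Pool.Agent.V8H41.DG

variable {S L : Type}

/-- The output of a transducer. -/
def T (δ : S → L → S) (out : S → L → List L) : S → List L → List L
  | _, [] => []
  | q, x :: u => out q x ++ T δ out (δ q x) u

/-- The last state. -/
def dl (δ : S → L → S) : S → List L → S
  | q, [] => q
  | q, x :: u => dl δ (δ q x) u

/-- A chain of transducers with output buffers: the output and the last states. -/
def pipe (δ : S → L → S) (out : S → L → List L) : List (S × List L) → List L → List L × List S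
  | [], u => (u, [])
  | (q, r) :: Z, u => ((pipe δ out Z (r ++ T δ out q u)).1,
      dl δ q u :: (pipe δ out Z (r ++ T δ out q u)).2)

theorem pipe_snoc (δ : S → L → S) (out : S → L → List L) :
    ∀ (Z : List (S × List L)) (q : S) (r u : List L), pipe δ out (Z ++ [(q, r)]) u =
      (r ++ T δ out q (pipe δ out Z u).1, (pipe δ out Z u).2 ++ [dl δ q (pipe δ out Z u).1]) := by
  intro Z
  induction Z with
  | nil => intro q r u; rfl
  | cons c Z ih =>
    intro q r u
    obtain ⟨q', r'⟩ := c
    rw [List.cons_append]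
    simp only [pipe, ih, List.cons_append]

/-- Buffers. -/
abbrev Buf (L : Type) (c : ℕ) : Type := {l : List L // l.length ≤ c}

/-- The rest of a buffer. -/
def Buf.tl {c : ℕ} (b : Buf L c) : Buf L c := ⟨b.1.tail, by
  rw [List.length_tail]
  have := b.2
  omega⟩

/-- The empty buffer. -/
def nl (L : Type) (c : ℕ) : Buf L c := ⟨[], Nat.zero_le _⟩

/-- Symbols: letters and transducers with buffers. -/
abbrev Sy (S L : Type) (c : ℕ) : Type := L ⊕ S × Buf L c

/-- States of the machine. -/
inductive Q (S L : Type) (c : ℕ) : Type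
  | ini : Q S L c
  | cS : Q S L c
  | cR (q : S) (r : Buf L c) : Q S L c
  | f1 : Q S L c
  | f2 : Q S L c
  | f3 : Q S L c
  | s1 : Q S L c
  | s2 : Q S L c
  | s3 : Q S L c
  | s4 : Q S L c
  | pS : Q S L c
  | ld (σ : S) : Q S L c
  | D (σ : S) : Q S L c
  | U (σ : S) (y : L) : Q S L c
  | E1 (σ : S) : Q S L c
  | E2 : Q S L c

/-- Code of a state. -/
def Q.cd {c : ℕ} : Q S L c → Fin 16 × Option S × Option L × Option (Buf L c)
  | Q.ini => (0, none, none, none)
  | Q.cS => (1, none, none, none)
  | Q.cR q r => (2, some q, none, some r)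
  | Q.f1 => (3, none, none, none)
  | Q.f2 => (4, none, none, none)
  | Q.f3 => (5, none, none, none)
  | Q.s1 => (6, none, none, none)
  | Q.s2 => (7, none, none, none)
  | Q.s3 => (8, none, none, none)
  | Q.s4 => (9, none, none, none)
  | Q.pS => (10, none, none, none)
  | Q.ld σ => (11, some σ, none, none)
  | Q.D σ => (12, some σ, none, none)
  | Q.U σ y => (13, some σ, some y, none)
  | Q.E1 σ => (14, some σ, none, none)
  | Q.E2 => (15, none, none, none)

theorem Q.cd_inj {c : ℕ} : Function.Injective (Q.cd (S := S) (L := L) (c := c)) := by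
  intro a b h
  cases a <;> cases b <;> simp [Q.cd] at h ⊢ <;> exact h

instance finite_buf [Finite L] (c : ℕ) : Finite (Buf L c) :=
  (List.finite_length_le L c).to_subtype

instance finite_Q [Finite S] [Finite L] (c : ℕ) : Finite (Q S L c) :=
  Finite.of_injective _ Q.cd_inj

/-- Five actions. -/
abbrev A5 (Γ : Type) : Type := Act Γ × Act Γ × Act Γ × Act Γ × Act Γ

section machine

variable {c d : ℕ} (δ : S → L → S) (ob : S → L → Buf L c) (o : L → Fin d) (l0 : L) (s0 : S)

/-- The transitions. The stacks are: the rest of the current word, its read part (reversed), the new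
word (reversed), the transducers above the focus, the transducers below the focus. -/
def tr : Q S L c → Option (Sy S L c) → Option (Sy S L c) → Option (Sy S L c) →
    Option (Sy S L c) → Option (Sy S L c) → Q S L c × A5 (Sy S L c) × Option (Fin d)
  | Q.ini, _, _, _, _, _ => (Q.cS, (Act.push (Sum.inl l0), Act.keep, Act.keep,
      Act.push (Sum.inr (s0, nl L c)), Act.keep), some (o l0))
  | Q.cS, _, _, _, some (Sum.inr (q, _)), _ =>
      (Q.cR q (nl L c), (Act.keep, Act.keep, Act.keep, Act.keep, Act.keep), none)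
  | Q.cS, _, _, _, _, _ => (Q.cS, (Act.keep, Act.keep, Act.keep, Act.keep, Act.keep), none)
  | Q.cR q r, a, _, _, x, _ =>
    match r.1.head? with
    | none =>
      match a with
      | some (Sum.inl y) => (Q.cR (δ q y) (ob q y), (Act.pop, Act.push (Sum.inl y), Act.keep,
          Act.keep, Act.keep), none)
      | _ =>
        match x with
        | none => (Q.f1, (Act.keep, Act.keep, Act.keep, Act.keep, Act.keep), none)
        | some _ => (Q.s1, (Act.keep, Act.keep, Act.keep, Act.keep, Act.keep), none)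
    | some y =>
      match x with
      | none => (Q.f1, (Act.keep, Act.keep, Act.keep, Act.keep, Act.keep), none)
      | some z => (Q.cR q r.tl, (Act.keep, Act.keep, Act.push (Sum.inl y), Act.pop, Act.push z),
          none)
  | Q.f1, _, _, _, _, some z =>
      (Q.f1, (Act.keep, Act.keep, Act.keep, Act.push z, Act.pop), none)
  | Q.f1, _, _, _, _, none => (Q.f2, (Act.keep, Act.keep, Act.keep, Act.keep, Act.keep), none)
  | Q.f2, _, some z, _, _, _ =>
      (Q.f2, (Act.push z, Act.pop, Act.keep, Act.keep, Act.keep), none)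
  | Q.f2, _, none, _, _, _ => (Q.f3, (Act.keep, Act.keep, Act.keep, Act.keep, Act.keep), none)
  | Q.f3, _, _, some _, _, _ =>
      (Q.f3, (Act.keep, Act.keep, Act.pop, Act.keep, Act.keep), none)
  | Q.f3, _, _, none, _, _ => (Q.pS, (Act.keep, Act.keep, Act.keep, Act.keep, Act.keep), none)
  | Q.s1, _, _, _, _, some z =>
      (Q.s1, (Act.keep, Act.keep, Act.keep, Act.push z, Act.pop), none)
  | Q.s1, _, _, _, _, none => (Q.s2, (Act.keep, Act.keep, Act.keep, Act.keep, Act.keep), none)
  | Q.s2, _, _, _, _, _ => (Q.s3, (Act.keep, Act.keep, Act.keep, Act.pop, Act.keep), none)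
  | Q.s3, _, _, some z, _, _ =>
      (Q.s3, (Act.push z, Act.keep, Act.pop, Act.keep, Act.keep), none)
  | Q.s3, _, _, none, _, _ => (Q.s4, (Act.keep, Act.keep, Act.keep, Act.keep, Act.keep), none)
  | Q.s4, _, some _, _, _, _ =>
      (Q.s4, (Act.keep, Act.pop, Act.keep, Act.keep, Act.keep), none)
  | Q.s4, _, none, _, _, _ => (Q.pS, (Act.keep, Act.keep, Act.keep, Act.keep, Act.keep), none)
  | Q.pS, _, _, _, some (Sum.inr (q, _)), _ =>
      (Q.ld q, (Act.keep, Act.keep, Act.keep, Act.keep, Act.keep), none)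
  | Q.pS, _, _, _, _, _ => (Q.pS, (Act.keep, Act.keep, Act.keep, Act.keep, Act.keep), none)
  | Q.ld σ, _, _, _, some z, _ =>
      (Q.ld σ, (Act.keep, Act.keep, Act.keep, Act.pop, Act.push z), none)
  | Q.ld σ, _, _, _, none, _ => (Q.D σ, (Act.keep, Act.keep, Act.keep, Act.keep, Act.keep), none)
  | Q.D σ, a, _, _, _, y =>
    match y with
    | some (Sum.inr (q, r)) =>
      match r.1.head? with
      | some z => (Q.U σ z, (Act.keep, Act.keep, Act.keep, Act.keep,
          Act.set (Sum.inr (q, r.tl))), none)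
      | none => (Q.D σ, (Act.keep, Act.keep, Act.keep, Act.push (Sum.inr (q, r)), Act.pop), none)
    | _ =>
      match a with
      | some (Sum.inl y) => (Q.U σ y, (Act.pop, Act.push (Sum.inl y), Act.keep, Act.keep,
          Act.keep), none)
      | _ => (Q.E1 σ, (Act.keep, Act.keep, Act.keep, Act.keep, Act.keep), none)
  | Q.U σ y, _, _, _, x, _ =>
    match x with
    | some (Sum.inr (q, _)) =>
      match (ob q y).1.head? with
      | some z => (Q.U σ z, (Act.keep, Act.keep, Act.keep, Act.pop,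
          Act.push (Sum.inr (δ q y, (ob q y).tl))), none)
      | none => (Q.U σ y, (Act.keep, Act.keep, Act.keep, Act.keep, Act.keep), none)
    | _ => (Q.D σ, (Act.keep, Act.keep, Act.keep, Act.keep, Act.keep), some (o y))
  | Q.E1 σ, _, _, _, _, _ => (Q.E2, (Act.keep, Act.keep, Act.keep,
      Act.push (Sum.inr (σ, nl L c)), Act.keep), none)
  | Q.E2, _, some z, _, _, _ =>
      (Q.E2, (Act.push z, Act.pop, Act.keep, Act.keep, Act.keep), none)
  | Q.E2, _, none, _, _, _ => (Q.cS, (Act.keep, Act.keep, Act.keep, Act.keep, Act.keep), none)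

/-- Configurations. -/
abbrev C5 (S L : Type) (c : ℕ) : Type := Q S L c × List (Sy S L c) × List (Sy S L c) ×
  List (Sy S L c) × List (Sy S L c) × List (Sy S L c)

/-- The transition of a configuration. -/
def tc (x : C5 S L c) : Q S L c × A5 (Sy S L c) × Option (Fin d) :=
  tr δ ob o l0 s0 x.1 x.2.1.head? x.2.2.1.head? x.2.2.2.1.head? x.2.2.2.2.1.head?
    x.2.2.2.2.2.head?

/-- One step. -/
def st (x : C5 S L c) : C5 S L c :=
  ((tc δ ob o l0 s0 x).1, (tc δ ob o l0 s0 x).2.1.1.app x.2.1,
    (tc δ ob o l0 s0 x).2.1.2.1.app x.2.2.1, (tc δ ob o l0 s0 x).2.1.2.2.1.app x.2.2.2.1,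
    (tc δ ob o l0 s0 x).2.1.2.2.2.1.app x.2.2.2.2.1,
    (tc δ ob o l0 s0 x).2.1.2.2.2.2.app x.2.2.2.2.2)

/-- The output of a step. -/
def so (x : C5 S L c) : List (Fin d) := (tc δ ob o l0 s0 x).2.2.toList

/-- The machine. -/
def MM : SM (Q S L c) (Sy S L c) 5 d := fun q t =>
  ((tr δ ob o l0 s0 q (t 0) (t 1) (t 2) (t 3) (t 4)).1,
    ![(tr δ ob o l0 s0 q (t 0) (t 1) (t 2) (t 3) (t 4)).2.1.1,
      (tr δ ob o l0 s0 q (t 0) (t 1) (t 2) (t 3) (t 4)).2.1.2.1,
      (tr δ ob o l0 s0 q (t 0) (t 1) (t 2) (t 3) (t 4)).2.1.2.2.1,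
      (tr δ ob o l0 s0 q (t 0) (t 1) (t 2) (t 3) (t 4)).2.1.2.2.2.1,
      (tr δ ob o l0 s0 q (t 0) (t 1) (t 2) (t 3) (t 4)).2.1.2.2.2.2],
    (tr δ ob o l0 s0 q (t 0) (t 1) (t 2) (t 3) (t 4)).2.2)

/-- The configuration of the stack machine. -/
def toS (x : C5 S L c) : Q S L c × (Fin 5 → List (Sy S L c)) :=
  (x.1, ![x.2.1, x.2.2.1, x.2.2.2.1, x.2.2.2.2.1, x.2.2.2.2.2])

theorem sstep_toS (x : C5 S L c) : sstep (MM δ ob o l0 s0) (toS x) = toS (st δ ob o l0 s0 x) := by
  refine Prod.ext rfl ?_
  funext j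
  fin_cases j <;> rfl

theorem sout_toS (x : C5 S L c) : sout (MM δ ob o l0 s0) (toS x) = so δ ob o l0 s0 x := rfl

/-- The total height. -/
def tot (x : C5 S L c) : ℕ := x.2.1.length + x.2.2.1.length + x.2.2.2.1.length +
  x.2.2.2.2.1.length + x.2.2.2.2.2.length

/-- Runs with total height at most `H`. -/
inductive Reach (H : ℕ) : C5 S L c → List (Fin d) → C5 S L c → Prop
  | refl (x : C5 S L c) (h : tot x ≤ H) : Reach H x [] x
  | step (x y : C5 S L c) (l : List (Fin d)) (h : tot x ≤ H)
      (r : Reach H (st δ ob o l0 s0 x) l y) : Reach H x (so δ ob o l0 s0 x ++ l) y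

variable {δ ob o l0 s0}

theorem Reach.trans {H : ℕ} {x y z : C5 S L c} {l l' : List (Fin d)}
    (h : Reach δ ob o l0 s0 H x l y) (h' : Reach δ ob o l0 s0 H y l' z) :
    Reach δ ob o l0 s0 H x (l ++ l') z := by
  induction h with
  | refl x hx => exact h'
  | step x y l hx _ ih =>
    rw [List.append_assoc]
    exact Reach.step _ _ _ hx (ih h')

/-- A silent step. -/
theorem Reach.one {H : ℕ} {x x' y : C5 S L c} {l : List (Fin d)} (hx : tot x ≤ H)
    (h1 : st δ ob o l0 s0 x = x') (h2 : so δ ob o l0 s0 x = [])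
    (h : Reach δ ob o l0 s0 H x' l y) : Reach δ ob o l0 s0 H x l y := by
  have h3 := Reach.step (δ := δ) (ob := ob) (o := o) (l0 := l0) (s0 := s0) x y l hx (h1 ▸ h)
  rw [h2, List.nil_append] at h3
  exact h3

/-! ### Moving loops -/

variable {H : ℕ} (A A' B X Y : List (Sy S L c))

theorem run_f1 (h : tot ((Q.f1, A, A', B, X, Y) : C5 S L c) ≤ H) :
    Reach δ ob o l0 s0 H (Q.f1, A, A', B, X, Y) [] (Q.f2, A, A', B, Y.reverse ++ X, []) := by
  induction Y generalizing X with
  | nil => exact Reach.one h rfl rfl (Reach.refl _ h)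
  | cons z Y ih =>
    refine Reach.one h rfl rfl ?_
    have h1 := ih (z :: X) (by simp only [tot, List.length_cons] at h ⊢; omega)
    rw [List.reverse_cons, List.append_assoc]
    exact h1

theorem run_s1 (h : tot ((Q.s1, A, A', B, X, Y) : C5 S L c) ≤ H) :
    Reach δ ob o l0 s0 H (Q.s1, A, A', B, X, Y) [] (Q.s2, A, A', B, Y.reverse ++ X, []) := by
  induction Y generalizing X with
  | nil => exact Reach.one h rfl rfl (Reach.refl _ h)
  | cons z Y ih =>
    refine Reach.one h rfl rfl ?_
    have h1 := ih (z :: X) (by simp only [tot, List.length_cons] at h ⊢; omega)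
    rw [List.reverse_cons, List.append_assoc]
    exact h1

theorem run_f2 (h : tot ((Q.f2, A, A', B, X, Y) : C5 S L c) ≤ H) :
    Reach δ ob o l0 s0 H (Q.f2, A, A', B, X, Y) [] (Q.f3, A'.reverse ++ A, [], B, X, Y) := by
  induction A' generalizing A with
  | nil => exact Reach.one h rfl rfl (Reach.refl _ h)
  | cons z A' ih =>
    refine Reach.one h rfl rfl ?_
    have h1 := ih (z :: A) (by simp only [tot, List.length_cons] at h ⊢; omega)
    rw [List.reverse_cons, List.append_assoc]
    exact h1

theorem run_E2 (h : tot ((Q.E2, A, A', B, X, Y) : C5 S L c) ≤ H) :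
    Reach δ ob o l0 s0 H (Q.E2, A, A', B, X, Y) [] (Q.cS, A'.reverse ++ A, [], B, X, Y) := by
  induction A' generalizing A with
  | nil => exact Reach.one h rfl rfl (Reach.refl _ h)
  | cons z A' ih =>
    refine Reach.one h rfl rfl ?_
    have h1 := ih (z :: A) (by simp only [tot, List.length_cons] at h ⊢; omega)
    rw [List.reverse_cons, List.append_assoc]
    exact h1

theorem run_f3 (h : tot ((Q.f3, A, A', B, X, Y) : C5 S L c) ≤ H) :
    Reach δ ob o l0 s0 H (Q.f3, A, A', B, X, Y) [] (Q.pS, A, A', [], X, Y) := by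
  induction B with
  | nil => exact Reach.one h rfl rfl (Reach.refl _ h)
  | cons z B ih =>
    refine Reach.one h rfl rfl ?_
    exact ih (by simp only [tot, List.length_cons] at h ⊢; omega)

theorem run_s4 (h : tot ((Q.s4, A, A', B, X, Y) : C5 S L c) ≤ H) :
    Reach δ ob o l0 s0 H (Q.s4, A, A', B, X, Y) [] (Q.pS, A, [], B, X, Y) := by
  induction A' with
  | nil => exact Reach.one h rfl rfl (Reach.refl _ h)
  | cons z A' ih =>
    refine Reach.one h rfl rfl ?_
    exact ih (by simp only [tot, List.length_cons] at h ⊢; omega)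

theorem run_s3 (h : tot ((Q.s3, A, A', B, X, Y) : C5 S L c) ≤ H) :
    Reach δ ob o l0 s0 H (Q.s3, A, A', B, X, Y) [] (Q.s4, B.reverse ++ A, A', [], X, Y) := by
  induction B generalizing A with
  | nil => exact Reach.one h rfl rfl (Reach.refl _ h)
  | cons z B ih =>
    refine Reach.one h rfl rfl ?_
    have h1 := ih (z :: A) (by simp only [tot, List.length_cons] at h ⊢; omega)
    rw [List.reverse_cons, List.append_assoc]
    exact h1

theorem run_ld (σ : S) (h : tot ((Q.ld σ, A, A', B, X, Y) : C5 S L c) ≤ H) :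
    Reach δ ob o l0 s0 H (Q.ld σ, A, A', B, X, Y) [] (Q.D σ, A, A', B, [], X.reverse ++ Y) := by
  induction X generalizing Y with
  | nil => exact Reach.one h rfl rfl (Reach.refl _ h)
  | cons z X ih =>
    refine Reach.one h rfl rfl ?_
    have h1 := ih (z :: Y) (by simp only [tot, List.length_cons] at h ⊢; omega)
    rw [List.reverse_cons, List.append_assoc]
    exact h1

end machine

end Pool.Agent.V8H41.DG
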