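import Pool.Agent.V8H41.DG.Alg

/-!
# The phases of a round
-/

set_option autoImplicit false

namespace Pool.Agent.V8H41.DG

variable {S L : Type} {c d : ℕ} {δ : S → L → S} {ob : S → L → Buf L c} {o : L → Fin d} {l0 : L}
  {s0 : S} {H : ℕ}

/-- Letters as symbols. -/
def lt (S : Type) (c : ℕ) (u : List L) : List (Sy S L c) := u.map Sum.inl

/-- Transducers with empty buffers. -/
def ce (L : Type) (c : ℕ) (Z : List S) : List (Sy S L c) := Z.map fun q => Sum.inr (q, nl L c)

/-- The output words. -/
def ou (ob : S → L → Buf L c) : S → L → List L := fun q y => (ob q y).1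

theorem run_push (A A' : List (Sy S L c)) (q : S) : ∀ (l : List L) (hl : l.length ≤ c)
    (B X Y : List (Sy S L c)),
    tot ((Q.cR q ⟨l, hl⟩, A, A', B, X, Y) : C5 S L c) + X.length ≤ H →
    (l.length ≤ X.length → Reach δ ob o l0 s0 H (Q.cR q ⟨l, hl⟩, A, A', B, X, Y) []
      (Q.cR q (nl L c), A, A', (lt S c l).reverse ++ B, X.drop l.length,
        (X.take l.length).reverse ++ Y)) ∧
    (X.length < l.length → ∃ B1 : List (Sy S L c), B1.length = B.length + X.length ∧
      Reach δ ob o l0 s0 H (Q.cR q ⟨l, hl⟩, A, A', B, X, Y) []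
        (Q.f1, A, A', B1, [], X.reverse ++ Y)) := by
  intro l
  induction l with
  | nil =>
    intro hl B X Y h
    refine ⟨fun _ => ?_, fun h1 => absurd h1 (Nat.not_lt_zero _)⟩
    exact Reach.refl _ (le_trans (Nat.le_add_right _ _) h)
  | cons y l ih =>
    intro hl B X Y h
    have hH : tot ((Q.cR q ⟨y :: l, hl⟩, A, A', B, X, Y) : C5 S L c) ≤ H :=
      le_trans (Nat.le_add_right _ _) h
    cases X with
    | nil =>
      refine ⟨fun h1 => absurd h1 (by simp), fun _ => ⟨B, rfl, ?_⟩⟩
      exact Reach.one hH rfl rfl (Reach.refl _ hH)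
    | cons z X =>
      have hl' : l.length ≤ c := by
        rw [List.length_cons] at hl
        omega
      obtain ⟨i1, i2⟩ := ih hl' (Sum.inl y :: B) X (z :: Y) (by
        simp only [tot, List.length_cons] at h ⊢
        omega)
      refine ⟨fun h1 => ?_, fun h1 => ?_⟩
      · refine Reach.one hH rfl rfl ?_
        have h2 := i1 (by simpa using h1)
        have e1 : (lt S c (y :: l)).reverse ++ B = (lt S c l).reverse ++ (Sum.inl y :: B) := by
          simp [lt]
        have e2 : ((z :: X).take (y :: l).length).reverse ++ Y =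
            (X.take l.length).reverse ++ (z :: Y) := by
          simp
        rw [e1, e2]
        exact h2
      · obtain ⟨B1, hB1, h2⟩ := i2 (by simpa using h1)
        refine ⟨B1, by rw [hB1]; simp only [List.length_cons]; omega, ?_⟩
        refine Reach.one hH rfl rfl ?_
        rw [List.reverse_cons, List.append_assoc]
        exact h2

theorem run_check : ∀ (u : List L) (q : S) (l : List L) (hl : l.length ≤ c)
    (A' B X Y : List (Sy S L c)),
    tot ((Q.cR q ⟨l, hl⟩, lt S c u, A', B, X, Y) : C5 S L c) + X.length ≤ H →
    ((l ++ T δ (ou ob) q u).length < X.length →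
      Reach δ ob o l0 s0 H (Q.cR q ⟨l, hl⟩, lt S c u, A', B, X, Y) []
      (Q.s1, [], (lt S c u).reverse ++ A', (lt S c (l ++ T δ (ou ob) q u)).reverse ++ B,
        X.drop (l ++ T δ (ou ob) q u).length,
        (X.take (l ++ T δ (ou ob) q u).length).reverse ++ Y)) ∧
    (X.length ≤ (l ++ T δ (ou ob) q u).length → ∃ A1 A1' B1 : List (Sy S L c),
      A1'.reverse ++ A1 = A'.reverse ++ lt S c u ∧
      Reach δ ob o l0 s0 H (Q.cR q ⟨l, hl⟩, lt S c u, A', B, X, Y) []
        (Q.f1, A1, A1', B1, [], X.reverse ++ Y) ∧
        tot ((Q.f1, A1, A1', B1, [], X.reverse ++ Y) : C5 S L c) ≤ H) := by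
  intro u
  induction u with
  | nil =>
    intro q l hl A' B X Y h
    obtain ⟨i1, i2⟩ := run_push (δ := δ) (ob := ob) (o := o) (l0 := l0) (s0 := s0) (H := H)
      (lt S c []) A' q l hl B X Y h
    have hT : l ++ T δ (ou ob) q [] = l := by
      show l ++ [] = l
      rw [List.append_nil]
    rw [hT]
    refine ⟨fun h1 => ?_, fun h1 => ?_⟩
    · obtain ⟨z, X', hX'⟩ : ∃ z X', X.drop l.length = z :: X' := by
        cases hd : X.drop l.length with
        | nil =>
          rw [List.drop_eq_nil_iff] at hd
          omega
        | cons z X' => exact ⟨z, X', rfl⟩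
      have h2 := (i1 h1.le).trans (l' := []) (z := (Q.s1, [], A', (lt S c l).reverse ++ B,
        X.drop l.length, (X.take l.length).reverse ++ Y)) (by
          rw [hX']
          have hb : tot ((Q.cR q (nl L c), lt S c [], A', (lt S c l).reverse ++ B, z :: X',
              (X.take l.length).reverse ++ Y) : C5 S L c) ≤ H := by
            have h3 := congrArg List.length hX'
            simp only [tot, lt, List.map_nil, List.length_nil, List.length_append,
              List.length_reverse, List.length_map, List.length_take, List.length_drop,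
              List.length_cons] at h h3 ⊢
            omega
          exact Reach.one hb rfl rfl (Reach.refl _ hb))
      exact h2
    · rcases Nat.lt_or_ge X.length l.length with h2 | h2
      · obtain ⟨B1, hB1, h3⟩ := i2 h2
        refine ⟨lt S c [], A', B1, rfl, h3, ?_⟩
        simp only [tot, List.length_nil, List.length_append, List.length_reverse, hB1] at h ⊢
        omega
      · have hXl : l.length = X.length := le_antisymm h2 h1
        have hd : X.drop l.length = [] := by rw [hXl, List.drop_length]
        have ht : X.take l.length = X := by rw [hXl, List.take_length]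
        have h3 := i1 h2
        rw [hd, ht] at h3
        have hb : tot ((Q.f1, lt S c [], A', (lt S c l).reverse ++ B, [], X.reverse ++ Y) :
            C5 S L c) ≤ H := by
          simp only [tot, lt, List.map_nil, List.length_nil, List.length_append,
            List.length_reverse, List.length_map] at h ⊢
          omega
        refine ⟨lt S c [], A', (lt S c l).reverse ++ B, rfl, ?_, hb⟩
        exact h3.trans (Reach.one hb rfl rfl (Reach.refl _ hb))
  | cons y u ih =>
    intro q l hl A' B X Y h
    obtain ⟨i1, i2⟩ := run_push (δ := δ) (ob := ob) (o := o) (l0 := l0) (s0 := s0) (H := H)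
      (lt S c (y :: u)) A' q l hl B X Y h
    have hT : l ++ T δ (ou ob) q (y :: u) = l ++ ((ob q y).1 ++ T δ (ou ob) (δ q y) u) := rfl
    rw [hT]
    rcases Nat.lt_or_ge X.length l.length with h2 | h2
    · refine ⟨fun h1 => ?_, fun _ => ?_⟩
      · rw [List.length_append] at h1
        omega
      · obtain ⟨B1, hB1, h3⟩ := i2 h2
        refine ⟨lt S c (y :: u), A', B1, rfl, h3, ?_⟩
        simp only [tot, List.length_nil, List.length_append, List.length_reverse, hB1] at h ⊢
        omega
    · have h3 := i1 h2
      have hb : tot ((Q.cR q (nl L c), lt S c (y :: u), A', (lt S c l).reverse ++ B,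
          X.drop l.length, (X.take l.length).reverse ++ Y) : C5 S L c) + (X.drop l.length).length
            ≤ H := by
        simp only [tot, lt, List.length_append, List.length_reverse, List.length_map,
          List.length_take, List.length_drop] at h ⊢
        omega
      obtain ⟨j1, j2⟩ := ih (δ q y) (ob q y).1 (ob q y).2 (Sum.inl y :: A')
        ((lt S c l).reverse ++ B) (X.drop l.length) ((X.take l.length).reverse ++ Y) (by
          simp only [tot, lt, List.length_append, List.length_reverse, List.length_map,
            List.length_take, List.length_drop, List.length_cons] at hb ⊢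
          omega)
      have hstep : ∀ {z : C5 S L c}, Reach δ ob o l0 s0 H (Q.cR (δ q y) (ob q y), lt S c u,
          Sum.inl y :: A', (lt S c l).reverse ++ B, X.drop l.length,
          (X.take l.length).reverse ++ Y) [] z →
          Reach δ ob o l0 s0 H (Q.cR q ⟨l, hl⟩, lt S c (y :: u), A', B, X, Y) [] z := by
        intro z hz
        exact h3.trans (Reach.one (le_trans (Nat.le_add_right _ _) hb) rfl rfl hz)
      refine ⟨fun h1 => ?_, fun h1 => ?_⟩
      · have h4 := hstep (j1 (by
          rw [List.length_append] at h1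
          rw [List.length_drop]
          omega))
        have e1 : (lt S c (y :: u)).reverse ++ A' = (lt S c u).reverse ++ (Sum.inl y :: A') := by
          simp [lt]
        have e2 : (lt S c (l ++ ((ob q y).1 ++ T δ (ou ob) (δ q y) u))).reverse ++ B =
            (lt S c ((ob q y).1 ++ T δ (ou ob) (δ q y) u)).reverse ++ ((lt S c l).reverse ++ B) := by
          simp [lt]
        have e3 : X.drop (l ++ ((ob q y).1 ++ T δ (ou ob) (δ q y) u)).length =
            (X.drop l.length).drop ((ob q y).1 ++ T δ (ou ob) (δ q y) u).length := by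
          rw [List.drop_drop, List.length_append]
        have e4 : (X.take (l ++ ((ob q y).1 ++ T δ (ou ob) (δ q y) u)).length).reverse ++ Y =
            ((X.drop l.length).take ((ob q y).1 ++ T δ (ou ob) (δ q y) u).length).reverse ++
              ((X.take l.length).reverse ++ Y) := by
          rw [List.length_append, List.take_add, List.reverse_append, List.append_assoc]
        rw [e1, e2, e3, e4]
        exact h4
      · obtain ⟨A1, A1', B1, k1, k2, k3⟩ := j2 (by
          rw [List.length_append] at h1
          rw [List.length_drop]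
          omega)
        have e5 : (X.drop l.length).reverse ++ ((X.take l.length).reverse ++ Y) =
            X.reverse ++ Y := by
          rw [← List.append_assoc, ← List.reverse_append, List.take_append_drop]
        rw [e5] at k2 k3
        refine ⟨A1, A1', B1, ?_, hstep k2, k3⟩
        rw [k1]
        simp [lt]

/-- The end of the check: the current word and the list of transducers. -/
theorem run_choose (u : List L) (σ : S) (Z : List S)
    (h : u.length + 3 * (Z.length + 1) ≤ H) :
    (((T δ (ou ob) σ u).length < Z.length + 1 →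
      Reach δ ob o l0 s0 H (Q.cS, lt S c u, [], [], ce L c (σ :: Z), []) []
        (Q.pS, lt S c (T δ (ou ob) σ u), [], [], ce L c Z, [])) ∧
    (Z.length + 1 ≤ (T δ (ou ob) σ u).length →
      Reach δ ob o l0 s0 H (Q.cS, lt S c u, [], [], ce L c (σ :: Z), []) []
        (Q.pS, lt S c u, [], [], ce L c (σ :: Z), []))) := by
  have hlen : (ce L c (σ :: Z)).length = Z.length + 1 := by simp [ce]
  have hlu : (lt S c u).length = u.length := by simp [lt]
  obtain ⟨i1, i2⟩ := run_check (δ := δ) (ob := ob) (o := o) (l0 := l0) (s0 := s0) (H := H) u σ []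
    (Nat.zero_le _) [] [] (ce L c (σ :: Z)) [] (by
      simp only [tot, List.length_nil, hlen, hlu]
      omega)
  rw [List.nil_append, hlen] at i1 i2
  have h0 : tot ((Q.cS, lt S c u, [], [], ce L c (σ :: Z), []) : C5 S L c) ≤ H := by
    simp only [tot, List.length_nil, hlen, hlu]
    omega
  refine ⟨fun h1 => ?_, fun h1 => ?_⟩
  · have hTl : (lt S c (T δ (ou ob) σ u)).length = (T δ (ou ob) σ u).length := by simp [lt]
    refine Reach.one h0 rfl rfl ?_
    refine (i1 h1).trans (l' := []) ?_
    have g1 : tot ((Q.s1, [], (lt S c u).reverse ++ [],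
        (lt S c (T δ (ou ob) σ u)).reverse ++ [],
        (ce L c (σ :: Z)).drop (T δ (ou ob) σ u).length,
        ((ce L c (σ :: Z)).take (T δ (ou ob) σ u).length).reverse ++ []) : C5 S L c) ≤ H := by
      simp only [tot, List.length_nil, List.append_nil, List.length_reverse, List.length_drop,
        List.length_take, hlen, hlu, hTl]
      omega
    refine (run_s1 _ _ _ _ _ g1).trans (l' := []) ?_
    have e1 : (((ce L c (σ :: Z)).take (T δ (ou ob) σ u).length).reverse ++ []).reverse ++
        (ce L c (σ :: Z)).drop (T δ (ou ob) σ u).length = ce L c (σ :: Z) := by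
      rw [List.append_nil, List.reverse_reverse, List.take_append_drop]
    rw [e1]
    have g2 : tot ((Q.s2, [], (lt S c u).reverse ++ [],
        (lt S c (T δ (ou ob) σ u)).reverse ++ [], ce L c (σ :: Z), []) : C5 S L c) ≤ H := by
      simp only [tot, List.length_nil, List.append_nil, List.length_reverse, hlen, hlu, hTl]
      omega
    refine Reach.one g2 rfl rfl ?_
    have g3 : tot ((Q.s3, [], (lt S c u).reverse ++ [],
        (lt S c (T δ (ou ob) σ u)).reverse ++ [], ce L c Z, []) : C5 S L c) ≤ H := by
      simp only [tot, List.length_nil, List.append_nil, List.length_reverse, hlu, hTl, ce,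
        List.length_map]
      omega
    refine (run_s3 _ _ _ _ _ g3).trans (l' := []) ?_
    have g4 : tot ((Q.s4, ((lt S c (T δ (ou ob) σ u)).reverse ++ []).reverse ++ [],
        (lt S c u).reverse ++ [], [], ce L c Z, []) : C5 S L c) ≤ H := by
      simp only [tot, List.length_nil, List.append_nil, List.length_reverse, hlu, hTl, ce,
        List.length_map]
      omega
    have h5 := run_s4 (δ := δ) (ob := ob) (o := o) (l0 := l0) (s0 := s0) _ _ _ _ _ g4
    rw [List.append_nil, List.append_nil, List.reverse_reverse] at h5
    rw [List.append_nil, List.append_nil, List.reverse_reverse]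
    exact h5
  · obtain ⟨A1, A1', B1, k1, k2, k3⟩ := i2 h1
    refine Reach.one h0 rfl rfl ?_
    refine k2.trans (l' := []) ?_
    refine (run_f1 _ _ _ _ _ k3).trans (l' := []) ?_
    rw [List.append_nil, List.append_nil, List.reverse_reverse]
    have g1 : tot ((Q.f2, A1, A1', B1, ce L c (σ :: Z), []) : C5 S L c) ≤ H := by
      simp only [tot, List.length_nil, List.length_append, List.length_reverse] at k3 ⊢
      omega
    refine (run_f2 _ _ _ _ _ g1).trans (l' := []) ?_
    rw [k1, List.reverse_nil, List.nil_append]
    have g2 : tot ((Q.f3, lt S c u, [], B1, ce L c (σ :: Z), []) : C5 S L c) ≤ H := by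
      have h6 := congrArg List.length k1
      simp only [tot, List.length_nil, List.length_append, List.length_reverse,
        List.reverse_nil, List.nil_append] at g1 h6 ⊢
      omega
    exact run_f3 _ _ _ _ _ g2

/-! ### The chain of transducers -/

/-- Transducers with buffers as symbols. -/
def cl (Y : List (S × Buf L c)) : List (Sy S L c) := Y.map Sum.inr

/-- Their states and buffers. -/
def sb (Y : List (S × Buf L c)) : List (S × List L) := Y.map fun x => (x.1, x.2.1)

theorem sb_snoc (Y : List (S × Buf L c)) (q : S) (r : Buf L c) :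
    sb ((q, r) :: Y).reverse = sb Y.reverse ++ [(q, r.1)] := by
  simp [sb]

theorem T_ne (hob : ∀ q y, (ob q y).1 ≠ []) (q : S) (u : List L) (h : u ≠ []) :
    T δ (ou ob) q u ≠ [] := by
  cases u with
  | nil => exact absurd rfl h
  | cons y u =>
    show (ob q y).1 ++ T δ (ou ob) (δ q y) u ≠ []
    intro h1
    exact hob q y (List.append_eq_nil_iff.1 h1).1

/-- A request. -/
theorem run_req (hob : ∀ q y, (ob q y).1 ≠ []) (σ : S) (b : List (Sy S L c)) :
    ∀ (Y : List (S × Buf L c)) (X : List (Sy S L c)) (u v : List L) (y : L) (rest : List L),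
    tot ((Q.D σ, lt S c u, lt S c v, b, X, cl Y) : C5 S L c) ≤ H →
    (pipe δ (ou ob) (sb Y.reverse) u).1 = y :: rest →
    ∃ (Y1 : List (S × Buf L c)) (u1 v1 : List L), Y1.length = Y.length ∧
      v1.reverse ++ u1 = v.reverse ++ u ∧
      pipe δ (ou ob) (sb Y1.reverse) u1 = (rest, (pipe δ (ou ob) (sb Y.reverse) u).2) ∧
      Reach δ ob o l0 s0 H (Q.D σ, lt S c u, lt S c v, b, X, cl Y) []
        (Q.U σ y, lt S c u1, lt S c v1, b, X, cl Y1) := by
  intro Y
  induction Y with
  | nil =>
    intro X u v y rest h hp
    have hu : u = y :: rest := hp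
    subst hu
    refine ⟨[], rest, y :: v, rfl, by simp, rfl, ?_⟩
    have hb2 : tot ((Q.U σ y, lt S c rest, lt S c (y :: v), b, X, cl []) : C5 S L c) ≤ H := by
      simp only [tot, lt, List.length_map, List.length_cons, cl] at h ⊢
      omega
    exact Reach.one h rfl rfl (Reach.refl _ hb2)
  | cons x Y ih =>
    intro X u v y rest h hp
    obtain ⟨q, r, hr⟩ := x
    rw [sb_snoc, pipe_snoc] at hp ⊢
    simp only at hp ⊢
    cases r with
    | cons y0 r' =>
      have hr' : r'.length ≤ c := by
        rw [List.length_cons] at hr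
        omega
      rw [List.cons_append] at hp
      injection hp with hp1 hp2
      subst hp1
      refine ⟨(q, ⟨r', hr'⟩) :: Y, u, v, rfl, rfl, ?_, ?_⟩
      · rw [sb_snoc, pipe_snoc]
        simp only
        rw [hp2]
      · have hb2 : tot ((Q.U σ y0, lt S c u, lt S c v, b, X, cl ((q, ⟨r', hr'⟩) :: Y)) :
            C5 S L c) ≤ H := by
          simp only [tot, List.length_cons, cl, List.map_cons] at h ⊢
          omega
        exact Reach.one h rfl rfl (Reach.refl _ hb2)
    | nil =>
      rw [List.nil_append] at hp
      obtain ⟨y', rest', hy'⟩ : ∃ y' rest', (pipe δ (ou ob) (sb Y.reverse) u).1 = y' :: rest' := by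
        cases hq : (pipe δ (ou ob) (sb Y.reverse) u).1 with
        | nil =>
          rw [hq] at hp
          cases hp
        | cons y' rest' => exact ⟨y', rest', rfl⟩
      have h1 : tot ((Q.D σ, lt S c u, lt S c v, b, Sum.inr (q, ⟨[], hr⟩) :: X, cl Y) :
          C5 S L c) ≤ H := by
        simp only [tot, List.length_cons, cl, List.map_cons] at h ⊢
        omega
      obtain ⟨Y1, u1, v1, k1, k2, k3, k4⟩ := ih (Sum.inr (q, ⟨[], hr⟩) :: X) u v y' rest' h1 hy'
      have hT : T δ (ou ob) q (y' :: rest') = (ob q y').1 ++ T δ (ou ob) (δ q y') rest' := rfl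
      rw [hy', hT] at hp
      obtain ⟨z, r'', hz⟩ : ∃ z r'', (ob q y').1 = z :: r'' := by
        cases hq : (ob q y').1 with
        | nil => exact absurd hq (hob q y')
        | cons z r'' => exact ⟨z, r'', rfl⟩
      rw [hz, List.cons_append] at hp
      injection hp with hp1 hp2
      subst hp1
      refine ⟨(δ q y', (ob q y').tl) :: Y1, u1, v1, by simp [k1], k2, ?_, ?_⟩
      · rw [sb_snoc, pipe_snoc, k3]
        have e1 : ((ob q y').tl).1 = r'' := by
          show (ob q y').1.tail = r''
          rw [hz]
          rfl
        simp only [e1]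
        rw [hp2, hy']
        rfl
      · refine Reach.one h rfl rfl (k4.trans (l' := []) ?_)
        have hlen : (lt S c v1).length + (lt S c u1).length = (lt S c v).length +
            (lt S c u).length := by
          have := congrArg List.length k2
          simp only [List.length_append, List.length_reverse] at this
          simp only [lt, List.length_map]
          exact this
        have hb : tot ((Q.U σ y', lt S c u1, lt S c v1, b, Sum.inr (q, ⟨[], hr⟩) :: X, cl Y1) :
            C5 S L c) ≤ H := by
          simp only [tot, List.length_cons, cl, List.length_map] at h1 ⊢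
          omega
        have hh : (ob q y').1.head? = some z := by rw [hz]; rfl
        have hst : st δ ob o l0 s0 (Q.U σ y', lt S c u1, lt S c v1, b,
            Sum.inr (q, ⟨[], hr⟩) :: X, cl Y1) =
            (Q.U σ z, lt S c u1, lt S c v1, b, X, cl ((δ q y', (ob q y').tl) :: Y1)) := by
          simp only [st, tc, tr, List.head?_cons, hh]
          rfl
        have hso : so δ ob o l0 s0 (Q.U σ y', lt S c u1, lt S c v1, b,
            Sum.inr (q, ⟨[], hr⟩) :: X, cl Y1) = [] := by
          simp only [so, tc, tr, List.head?_cons, hh]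
          rfl
        refine Reach.one hb hst hso (Reach.refl _ ?_)
        simp only [tot, List.length_cons, cl, List.length_map] at hb ⊢
        omega

/-- No more letters. -/
theorem run_stop (hob : ∀ q y, (ob q y).1 ≠ []) (σ : S) (b A' : List (Sy S L c)) :
    ∀ (Y : List (S × Buf L c)) (X : List (Sy S L c)) (u : List L),
    tot ((Q.D σ, lt S c u, A', b, X, cl Y) : C5 S L c) ≤ H →
    (pipe δ (ou ob) (sb Y.reverse) u).1 = [] →
      u = [] ∧ (pipe δ (ou ob) (sb Y.reverse) u).2.length = Y.length ∧
      Reach δ ob o l0 s0 H (Q.D σ, lt S c u, A', b, X, cl Y) []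
        (Q.D σ, [], A', b, ce L c (pipe δ (ou ob) (sb Y.reverse) u).2 ++ X, []) := by
  intro Y
  induction Y with
  | nil =>
    intro X u h hp
    have hu : u = [] := hp
    subst hu
    exact ⟨rfl, rfl, Reach.refl _ h⟩
  | cons x Y ih =>
    intro X u h hp
    obtain ⟨q, r, hr⟩ := x
    rw [sb_snoc, pipe_snoc] at hp ⊢
    simp only at hp ⊢
    obtain ⟨h1, h2⟩ := List.append_eq_nil_iff.1 hp
    subst h1
    have h3 : (pipe δ (ou ob) (sb Y.reverse) u).1 = [] := by
      by_contra h4
      exact T_ne hob q _ h4 h2
    have hb : tot ((Q.D σ, lt S c u, A', b, Sum.inr (q, ⟨[], hr⟩) :: X, cl Y) : C5 S L c) ≤ H := by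
      simp only [tot, List.length_cons, cl, List.map_cons] at h ⊢
      omega
    obtain ⟨k1, k2, k3⟩ := ih (Sum.inr (q, ⟨[], hr⟩) :: X) u hb h3
    refine ⟨k1, by simp [k2], ?_⟩
    refine Reach.one h rfl rfl ?_
    rw [h3]
    have e1 : ce L c ((pipe δ (ou ob) (sb Y.reverse) u).2 ++ [dl δ q []]) ++ X =
        ce L c (pipe δ (ou ob) (sb Y.reverse) u).2 ++ (Sum.inr (q, ⟨[], hr⟩) :: X) := by
      simp only [ce, List.map_append, List.append_assoc]
      rfl
    rw [e1]
    exact k3

/-- The whole output of the chain. -/
theorem run_chain (hob : ∀ q y, (ob q y).1 ≠ []) (σ : S) (b : List (Sy S L c)) :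
    ∀ (W : List L) (Y : List (S × Buf L c)) (u v : List L),
    tot ((Q.D σ, lt S c u, lt S c v, b, [], cl Y) : C5 S L c) ≤ H →
    (pipe δ (ou ob) (sb Y.reverse) u).1 = W →
      (pipe δ (ou ob) (sb Y.reverse) u).2.length = Y.length ∧
      Reach δ ob o l0 s0 H (Q.D σ, lt S c u, lt S c v, b, [], cl Y) (W.map o)
        (Q.D σ, [], lt S c (u.reverse ++ v), b, ce L c (pipe δ (ou ob) (sb Y.reverse) u).2,
          []) := by
  intro W
  induction W with
  | nil =>
    intro Y u v h hp
    obtain ⟨h1, h2, h3⟩ := run_stop hob σ b (lt S c v) Y [] u h hp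
    subst h1
    rw [List.append_nil] at h3
    exact ⟨h2, h3⟩
  | cons y W ih =>
    intro Y u v h hp
    obtain ⟨Y1, u1, v1, k1, k2, k3, k4⟩ := run_req (o := o) (l0 := l0) (s0 := s0) hob σ b Y [] u v
      y W h hp
    have hlen : v1.length + u1.length = v.length + u.length := by
      have := congrArg List.length k2
      simpa only [List.length_append, List.length_reverse] using this
    have hb : tot ((Q.U σ y, lt S c u1, lt S c v1, b, [], cl Y1) : C5 S L c) ≤ H := by
      simp only [tot, cl, List.length_map, lt, List.length_nil] at h ⊢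
      omega
    obtain ⟨j1, j2⟩ := ih Y1 u1 v1 hb (by rw [k3])
    refine ⟨?_, ?_⟩
    · rw [k3, k1] at j1
      exact j1
    · have h5 : u1.reverse ++ v1 = u.reverse ++ v := by
        have := congrArg List.reverse k2
        simpa using this
      rw [h5, k3] at j2
      have h6 : Reach δ ob o l0 s0 H (Q.U σ y, lt S c u1, lt S c v1, b, [], cl Y1)
          ([o y] ++ W.map o) (Q.D σ, [], lt S c (u.reverse ++ v), b,
            ce L c (pipe δ (ou ob) (sb Y.reverse) u).2, []) :=
        Reach.step _ _ _ hb j2
      exact k4.trans h6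

/-- The second half of a round. -/
theorem run_out (hob : ∀ q y, (ob q y).1 ≠ []) (u : List L) (σ : S) (Z : List S)
    (h : u.length + Z.length + 2 ≤ H) :
    Reach δ ob o l0 s0 H (Q.pS, lt S c u, [], [], ce L c (σ :: Z), [])
      ((pipe δ (ou ob) ((σ :: Z).map fun q => (q, [])) u).1.map o)
      (Q.cS, lt S c u, [], [],
        ce L c (σ :: (pipe δ (ou ob) ((σ :: Z).map fun q => (q, [])) u).2), []) := by
  have hlen : (ce L c (σ :: Z)).length = Z.length + 1 := by simp [ce]
  have hlu : (lt S c u).length = u.length := by simp [lt]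
  have h0 : tot ((Q.pS, lt S c u, [], [], ce L c (σ :: Z), []) : C5 S L c) ≤ H := by
    simp only [tot, List.length_nil, hlen, hlu]
    omega
  refine Reach.one h0 rfl rfl ?_
  have h1 : tot ((Q.ld σ, lt S c u, [], [], ce L c (σ :: Z), []) : C5 S L c) ≤ H := h0
  have h2 := run_ld (δ := δ) (ob := ob) (o := o) (l0 := l0) (s0 := s0) _ _ _ _ _ σ h1
  rw [List.append_nil] at h2
  obtain ⟨Y, hY⟩ : ∃ Y : List (S × Buf L c), Y = ((σ :: Z).map fun q => (q, nl L c)).reverse :=
    ⟨_, rfl⟩
  have hcY : (ce L c (σ :: Z)).reverse = cl Y := by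
    rw [hY]
    simp [ce, cl, Function.comp_def]
  have hsY : sb Y.reverse = (σ :: Z).map fun q => (q, []) := by
    rw [hY, List.reverse_reverse]
    unfold sb
    rw [List.map_map]
    rfl
  rw [hcY] at h2
  have hYl : Y.length = Z.length + 1 := by
    rw [hY]
    simp
  have h3 : tot ((Q.D σ, lt S c u, lt S c [], [], [], cl Y) : C5 S L c) ≤ H := by
    simp only [tot, List.length_nil, hlu, cl, List.length_map, hYl, lt, List.map_nil]
    simp only [lt] at hlu
    omega
  obtain ⟨h4, h5⟩ := run_chain (o := o) (l0 := l0) (s0 := s0) hob σ [] _ Y u [] h3 rfl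
  rw [hsY] at h4 h5
  rw [List.append_nil] at h5
  obtain ⟨F, hF⟩ : ∃ F, F = (pipe δ (ou ob) ((σ :: Z).map fun q => (q, [])) u).2 := ⟨_, rfl⟩
  rw [← hF] at h4 h5 ⊢
  have hFl : (ce L c F).length = Z.length + 1 := by
    simp only [ce, List.length_map, h4, hYl]
  have h6 : tot ((Q.D σ, [], lt S c u.reverse, [], ce L c F, []) : C5 S L c) ≤ H := by
    simp only [tot, List.length_nil, hFl, lt, List.length_map, List.length_reverse]
    omega
  have h7 : tot ((Q.E2, [], lt S c u.reverse, [], ce L c (σ :: F), []) : C5 S L c) ≤ H := by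
    have : (ce L c (σ :: F)).length = Z.length + 2 := by
      simp only [ce, List.length_map, List.length_cons, h4, hYl]
    simp only [tot, List.length_nil, this, lt, List.length_map, List.length_reverse]
    omega
  have h8 := run_E2 (δ := δ) (ob := ob) (o := o) (l0 := l0) (s0 := s0) _ _ _ _ _ h7
  have e1 : (lt S c u.reverse).reverse ++ [] = lt S c u := by
    simp [lt]
  rw [e1] at h8
  have h9 : Reach δ ob o l0 s0 H (Q.D σ, [], lt S c u.reverse, [], ce L c F, []) []
      (Q.cS, lt S c u, [], [], ce L c (σ :: F), []) :=
    Reach.one h6 rfl rfl (Reach.one h6 rfl rfl h8)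
  have h10 := (h2.trans h5).trans h9
  rw [List.nil_append, List.append_nil] at h10
  exact h10

end Pool.Agent.V8H41.DG
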