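import Pool.Agent.V8H41.DG.Phases

/-!
# The rounds
-/

set_option autoImplicit false

namespace Pool.Agent.V8H41.DG

variable {S L : Type} {c d : ℕ} (δ : S → L → S) (ob : S → L → Buf L c) (o : L → Fin d) (l0 : L)
  (s0 : S)

/-- The words and the states of the stages. -/
def us : ℕ → List L × S
  | 0 => ([l0], s0)
  | n + 1 => (T δ (ou ob) (us n).2 (us n).1, dl δ (us n).2 (us n).1)

/-- The states of `m` stages. -/
def seg : ℕ → ℕ → List S
  | _, 0 => []
  | j, m + 1 => (us δ ob l0 s0 j).2 :: seg (j + 1) m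

theorem seg_length (m : ℕ) : ∀ j, (seg δ ob l0 s0 j m).length = m := by
  induction m with
  | zero => intro j; rfl
  | succ m ih => intro j; simp [seg, ih]

theorem pipe_seg (m : ℕ) : ∀ j, pipe δ (ou ob) ((seg δ ob l0 s0 j m).map fun q => (q, []))
    (us δ ob l0 s0 j).1 = ((us δ ob l0 s0 (j + m)).1, seg δ ob l0 s0 (j + 1) m) := by
  induction m with
  | zero => intro j; rfl
  | succ m ih =>
    intro j
    simp only [seg, List.map_cons, pipe, List.nil_append]
    have h1 : T δ (ou ob) (us δ ob l0 s0 j).2 (us δ ob l0 s0 j).1 = (us δ ob l0 s0 (j + 1)).1 :=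
      rfl
    rw [h1, ih (j + 1)]
    rw [show j + 1 + m = j + (m + 1) by ring]
    rfl

/-- The stage of the current word and the number of further stages. -/
def pos : ℕ → ℕ × ℕ
  | 0 => (0, 0)
  | r + 1 => if (us δ ob l0 s0 ((pos r).1 + 1)).1.length < (pos r).2 + 1 then
      ((pos r).1 + 1, (pos r).2) else ((pos r).1, (pos r).2 + 1)

variable {δ ob}

theorem T_length (hob : ∀ q y, (ob q y).1 ≠ []) : ∀ (u : List L) (q : S),
    u.length ≤ (T δ (ou ob) q u).length := by
  intro u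
  induction u with
  | nil => intro q; exact Nat.zero_le _
  | cons y u ih =>
    intro q
    show u.length + 1 ≤ ((ob q y).1 ++ T δ (ou ob) (δ q y) u).length
    rw [List.length_append]
    have h1 := ih (δ q y)
    have h2 : 1 ≤ (ob q y).1.length := List.length_pos_iff.2 (hob q y)
    omega

theorem us_mono (hob : ∀ q y, (ob q y).1 ≠ []) {i j : ℕ} (h : i ≤ j) :
    (us δ ob l0 s0 i).1.length ≤ (us δ ob l0 s0 j).1.length := by
  induction h with
  | refl => exact le_rfl
  | step _ ih => exact ih.trans (T_length hob _ _)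

theorem us_pos (hob : ∀ q y, (ob q y).1 ≠ []) (i : ℕ) : 1 ≤ (us δ ob l0 s0 i).1.length :=
  us_mono l0 s0 hob (Nat.zero_le i)

theorem pos_sum (r : ℕ) : (pos δ ob l0 s0 r).1 + (pos δ ob l0 s0 r).2 = r := by
  induction r with
  | zero => rfl
  | succ r ih =>
    unfold pos
    split_ifs
    · simp only; omega
    · simp only; omega

theorem pos_word (hob : ∀ q y, (ob q y).1 ≠ []) (r : ℕ) :
    (us δ ob l0 s0 (pos δ ob l0 s0 r).1).1.length ≤ (pos δ ob l0 s0 r).2 + 1 := by
  induction r with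
  | zero => exact le_rfl
  | succ r ih =>
    unfold pos
    split_ifs with h
    · simp only; omega
    · simp only; omega

/-- The number of further stages is as small as possible. -/
theorem pos_min (hob : ∀ q y, (ob q y).1 ≠ []) (r : ℕ) : ∀ k h : ℕ, r < k + h →
    (us δ ob l0 s0 (k + 1)).1.length ≤ h → (pos δ ob l0 s0 r).2 ≤ h := by
  induction r with
  | zero => intro k h _ _; exact Nat.zero_le _
  | succ r ih =>
    intro k h h1 h2
    unfold pos
    split_ifs with h3
    · exact ih k h (by omega) h2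
    · have h4 := pos_sum (δ := δ) (ob := ob) l0 s0 r
      simp only
      by_cases hk : (pos δ ob l0 s0 r).1 ≤ k
      · have h5 := us_mono (δ := δ) (ob := ob) l0 s0 hob
          (show (pos δ ob l0 s0 r).1 + 1 ≤ k + 1 by omega)
        omega
      · omega

/-- The configuration at the beginning of a round. -/
def rc (r : ℕ) : C5 S L c :=
  (Q.cS, lt S c (us δ ob l0 s0 (pos δ ob l0 s0 r).1).1, [], [],
    ce L c (seg δ ob l0 s0 (pos δ ob l0 s0 r).1 ((pos δ ob l0 s0 r).2 + 1)), [])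

/-- A round. -/
theorem round (hob : ∀ q y, (ob q y).1 ≠ []) (r : ℕ) :
    Reach δ ob o l0 s0 (4 * (pos δ ob l0 s0 r).2 + 4) (rc (δ := δ) (ob := ob) l0 s0 r)
      ((us δ ob l0 s0 (r + 1)).1.map o) (rc (δ := δ) (ob := ob) l0 s0 (r + 1)) := by
  obtain ⟨k, hk⟩ : ∃ k, k = (pos δ ob l0 s0 r).1 := ⟨_, rfl⟩
  obtain ⟨s, hs⟩ : ∃ s, s = (pos δ ob l0 s0 r).2 := ⟨_, rfl⟩
  have hsum := pos_sum (δ := δ) (ob := ob) l0 s0 r
  have hwd := pos_word (δ := δ) (ob := ob) l0 s0 hob r
  rw [← hk, ← hs] at hsum hwd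
  have hpos : pos δ ob l0 s0 (r + 1) = if (us δ ob l0 s0 (k + 1)).1.length < s + 1 then
      (k + 1, s) else (k, s + 1) := by
    rw [hk, hs]
    rfl
  have hseg : ∀ m, (seg δ ob l0 s0 (k + 1) m).length = m := fun m => seg_length δ ob l0 s0 m _
  obtain ⟨c1, c2⟩ := run_choose (δ := δ) (ob := ob) (o := o) (l0 := l0) (s0 := s0)
    (H := 4 * s + 4) (us δ ob l0 s0 k).1 (us δ ob l0 s0 k).2 (seg δ ob l0 s0 (k + 1) s) (by
      rw [hseg]
      omega)
  rw [hseg] at c1 c2
  unfold rc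
  rw [hpos, ← hk, ← hs]
  have hV : T δ (ou ob) (us δ ob l0 s0 k).2 (us δ ob l0 s0 k).1 = (us δ ob l0 s0 (k + 1)).1 := rfl
  rw [hV] at c1 c2
  by_cases h : (us δ ob l0 s0 (k + 1)).1.length < s + 1
  · rw [if_pos h]
    have h1 := us_pos (δ := δ) (ob := ob) l0 s0 hob (k + 1)
    obtain ⟨s', rfl⟩ : ∃ s', s = s' + 1 := ⟨s - 1, by omega⟩
    have h2 := run_out (δ := δ) (o := o) (l0 := l0) (s0 := s0) (H := 4 * (s' + 1) + 4) hob
      (us δ ob l0 s0 (k + 1)).1 (us δ ob l0 s0 (k + 1)).2 (seg δ ob l0 s0 (k + 1 + 1) s') (by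
        rw [seg_length]
        omega)
    have h3 : (us δ ob l0 s0 (k + 1)).2 :: seg δ ob l0 s0 (k + 1 + 1) s' =
        seg δ ob l0 s0 (k + 1) (s' + 1) := rfl
    rw [h3, pipe_seg] at h2
    have h4 := (c1 h).trans h2
    rw [show k + 1 + (s' + 1) = r + 1 by omega] at h4
    exact h4
  · rw [if_neg h]
    have h2 := run_out (δ := δ) (o := o) (l0 := l0) (s0 := s0) (H := 4 * s + 4) hob
      (us δ ob l0 s0 k).1 (us δ ob l0 s0 k).2 (seg δ ob l0 s0 (k + 1) s) (by
        rw [seg_length]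
        omega)
    have h3 : (us δ ob l0 s0 k).2 :: seg δ ob l0 s0 (k + 1) s =
        seg δ ob l0 s0 k (s + 1) := rfl
    rw [h3, pipe_seg] at h2
    have h4 := (c2 (not_lt.1 h)).trans h2
    rw [show k + (s + 1) = r + 1 by omega] at h4
    exact h4

/-- The beginning. -/
theorem start_round : Reach δ ob o l0 s0 2 (Q.ini, [], [], [], [], []) [o l0]
    (rc (δ := δ) (ob := ob) l0 s0 0) := by
  have h1 : tot (rc (δ := δ) (ob := ob) l0 s0 0) ≤ 2 := le_rfl
  have h2 := Reach.step (δ := δ) (ob := ob) (o := o) (l0 := l0) (s0 := s0) (H := 2)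
    (Q.ini, [], [], [], [], []) (rc (δ := δ) (ob := ob) l0 s0 0) [] (Nat.zero_le _)
    (Reach.refl _ h1)
  exact h2

/-! ### Runs -/

variable (δ ob)

/-- The configuration and the output after `t` steps. -/
def r5 (x : C5 S L c) : ℕ → C5 S L c × List (Fin d)
  | 0 => (x, [])
  | t + 1 => (st δ ob o l0 s0 (r5 x t).1, (r5 x t).2 ++ so δ ob o l0 s0 (r5 x t).1)

theorem srun_r5 (x : C5 S L c) (t : ℕ) : srun (MM δ ob o l0 s0) (toS x) t =
    (toS (r5 δ ob o l0 s0 x t).1, (r5 δ ob o l0 s0 x t).2) := by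
  induction t with
  | zero => rfl
  | succ t ih =>
    show (sstep (MM δ ob o l0 s0) (srun (MM δ ob o l0 s0) (toS x) t).1, _) = _
    rw [ih]
    simp only [sstep_toS, sout_toS]
    rfl

theorem r5_add (x : C5 S L c) (a b : ℕ) : r5 δ ob o l0 s0 x (a + b) =
    ((r5 δ ob o l0 s0 (r5 δ ob o l0 s0 x a).1 b).1,
      (r5 δ ob o l0 s0 x a).2 ++ (r5 δ ob o l0 s0 (r5 δ ob o l0 s0 x a).1 b).2) := by
  induction b with
  | zero => simp [r5]
  | succ b ih =>
    rw [← add_assoc]
    show (st δ ob o l0 s0 (r5 δ ob o l0 s0 x (a + b)).1, _) = _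
    rw [ih]
    simp only [r5, List.append_assoc]

theorem r5_prefix (x : C5 S L c) {a b : ℕ} (h : a ≤ b) :
    (r5 δ ob o l0 s0 x a).2 <+: (r5 δ ob o l0 s0 x b).2 := by
  obtain ⟨e, rfl⟩ := Nat.exists_eq_add_of_le h
  rw [r5_add]
  exact List.prefix_append _ _

variable {δ ob}

theorem reach_run {H : ℕ} {x y : C5 S L c} {l : List (Fin d)}
    (h : Reach δ ob o l0 s0 H x l y) : ∃ t, r5 δ ob o l0 s0 x t = (y, l) ∧
      ∀ a ≤ t, tot (r5 δ ob o l0 s0 x a).1 ≤ H := by
  induction h with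
  | refl x h =>
    refine ⟨0, rfl, fun a ha => ?_⟩
    obtain rfl := Nat.le_zero.1 ha
    exact h
  | step x y l h _ ih =>
    obtain ⟨t, h1, h2⟩ := ih
    refine ⟨1 + t, ?_, fun a ha => ?_⟩
    · rw [r5_add]
      have h3 : (r5 δ ob o l0 s0 x 1).1 = st δ ob o l0 s0 x := rfl
      have h4 : (r5 δ ob o l0 s0 x 1).2 = so δ ob o l0 s0 x := rfl
      rw [h3, h4, h1]
    · cases a with
      | zero => exact h
      | succ a =>
        rw [show a + 1 = 1 + a by ring, r5_add]
        exact h2 a (by omega)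

/-- The output before round `r`. -/
def O (δ : S → L → S) (ob : S → L → Buf L c) (o : L → Fin d) (l0 : L) (s0 : S) : ℕ → List (Fin d)
  | 0 => (us δ ob l0 s0 0).1.map o
  | r + 1 => O δ ob o l0 s0 r ++ (us δ ob l0 s0 (r + 1)).1.map o

theorem O_length (hob : ∀ q y, (ob q y).1 ≠ []) (r : ℕ) : r + 1 ≤ (O δ ob o l0 s0 r).length := by
  induction r with
  | zero => exact le_rfl
  | succ r ih =>
    show r + 1 + 1 ≤ (O δ ob o l0 s0 r ++ (us δ ob l0 s0 (r + 1)).1.map o).length
    rw [List.length_append, List.length_map]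
    have := us_pos (δ := δ) (ob := ob) l0 s0 hob (r + 1)
    omega

/-- The whole run. -/
theorem whole (hob : ∀ q y, (ob q y).1 ≠ []) (r : ℕ) : ∃ τ, r ≤ τ ∧
    r5 δ ob o l0 s0 (Q.ini, [], [], [], [], []) τ =
      (rc (δ := δ) (ob := ob) l0 s0 r, O δ ob o l0 s0 r) ∧
    ∀ t ≤ τ, tot (r5 δ ob o l0 s0 (Q.ini, [], [], [], [], []) t).1 ≤ 2 ∨ ∃ r' τ', τ' < t ∧
      (r5 δ ob o l0 s0 (Q.ini, [], [], [], [], []) τ').2 = O δ ob o l0 s0 r' ∧
      tot (r5 δ ob o l0 s0 (Q.ini, [], [], [], [], []) t).1 ≤ 4 * (pos δ ob l0 s0 r').2 + 4 := by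
  induction r with
  | zero =>
    obtain ⟨t, h1, h2⟩ := reach_run (δ := δ) (ob := ob) o l0 s0 (start_round (δ := δ) (ob := ob) o l0 s0)
    exact ⟨t, Nat.zero_le _, h1, fun a ha => Or.inl (h2 a ha)⟩
  | succ r ih =>
    obtain ⟨τ, h1, h2, h3⟩ := ih
    obtain ⟨t, k1, k2⟩ := reach_run (δ := δ) (ob := ob) o l0 s0 (round o l0 s0 hob r)
    have ht : t ≠ 0 := by
      rintro rfl
      have h4 := congrArg (fun x => x.2.length) k1
      simp only [r5, List.length_nil, List.length_map] at h4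
      have := us_pos (δ := δ) (ob := ob) l0 s0 hob (r + 1)
      omega
    refine ⟨τ + t, by omega, ?_, fun a ha => ?_⟩
    · rw [r5_add, h2, k1]
      rfl
    · rcases Nat.lt_or_ge τ a with h4 | h4
      · right
        obtain ⟨b, rfl⟩ := Nat.exists_eq_add_of_lt h4
        refine ⟨r, τ, h4, by rw [h2], ?_⟩
        rw [add_assoc, r5_add, h2]
        exact k2 (b + 1) (by omega)
      · exact h3 a h4

/-- **Generation with the optimal combination of both methods.** -/
theorem generates [Finite S] [Finite L] (hob : ∀ q y, (ob q y).1 ≠ []) (w : ℕ → Fin d)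
    (hw : ∀ (r i : ℕ) (h : i < (O δ ob o l0 s0 r).length), (O δ ob o l0 s0 r)[i] = w i)
    (f : ℕ → ℕ) (hf : ∀ n, 1 ≤ n → ∃ k, n ≤ (O δ ob o l0 s0 (k + f n)).length ∧
      (us δ ob l0 s0 (k + 1)).1.length ≤ f n) :
    Generates w (fun n => 4 * f n + 4 + 2) := by
  have hO : ∀ {i j : ℕ}, i ≤ j → (O δ ob o l0 s0 i).length ≤ (O δ ob o l0 s0 j).length := by
    intro i j h
    induction h with
    | refl => exact le_rfl
    | step _ ih =>
      refine ih.trans ?_
      show _ ≤ (_ ++ _ : List (Fin d)).length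
      rw [List.length_append]
      exact Nat.le_add_right _ _
  have hq : (Q.ini, fun _ => []) = toS ((Q.ini, [], [], [], [], []) : C5 S L c) := by
    refine Prod.ext rfl ?_
    funext j
    fin_cases j <;> rfl
  refine generates_of_stack (MM δ ob o l0 s0) Q.ini w _ ?_ ?_ ?_
  · intro t i h
    have h0 : (srun (MM δ ob o l0 s0) (Q.ini, fun _ => []) t).2 =
        (r5 δ ob o l0 s0 (Q.ini, [], [], [], [], []) t).2 := by
      rw [hq, srun_r5]
    have key : ∀ (l l' : List (Fin d)), l = l' → (∀ h' : i < l'.length, l'[i] = w i) →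
        ∀ (h : i < l.length), l[i] = w i := by
      rintro l _ rfl hh h
      exact hh h
    refine key _ _ h0 (fun h' => ?_) h
    obtain ⟨τ, h1, h2, -⟩ := whole (δ := δ) (ob := ob) o l0 s0 hob t
    have h3 := r5_prefix δ ob o l0 s0 (Q.ini, [], [], [], [], []) h1
    rw [h2] at h3
    have h4 : i < (O δ ob o l0 s0 t).length := lt_of_lt_of_le h' h3.length_le
    rw [← hw t i h4]
    exact h3.getElem h'
  · intro n
    obtain ⟨τ, -, h2, -⟩ := whole (δ := δ) (ob := ob) o l0 s0 hob n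
    refine ⟨τ, ?_⟩
    rw [hq]
    simp only [srun_r5]
    rw [h2]
    have := O_length (δ := δ) (ob := ob) o l0 s0 hob n
    simp only
    omega
  · intro n t hn ht j
    rw [hq] at ht ⊢
    simp only [srun_r5] at ht ⊢
    obtain ⟨τ, h1, -, h3⟩ := whole (δ := δ) (ob := ob) o l0 s0 hob t
    have h4 : tot (r5 δ ob o l0 s0 (Q.ini, [], [], [], [], []) t).1 ≤ 4 * f n + 4 := by
      rcases h3 t h1 with h5 | ⟨r', τ', h5, h6, h7⟩
      · omega
      · have h8 := ht τ' h5
        rw [h6] at h8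
        obtain ⟨k, hk1, hk2⟩ := hf n hn
        have h9 : r' < k + f n := by
          by_contra h10
          have := hO (not_lt.1 h10)
          omega
        have := pos_min (δ := δ) (ob := ob) l0 s0 hob r' k (f n) h9 hk2
        omega
    refine le_trans ?_ h4
    unfold toS tot
    fin_cases j
    · show (r5 δ ob o l0 s0 (Q.ini, [], [], [], [], []) t).1.2.1.length ≤ _
      omega
    · show (r5 δ ob o l0 s0 (Q.ini, [], [], [], [], []) t).1.2.2.1.length ≤ _
      omega
    · show (r5 δ ob o l0 s0 (Q.ini, [], [], [], [], []) t).1.2.2.2.1.length ≤ _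
      omega
    · show (r5 δ ob o l0 s0 (Q.ini, [], [], [], [], []) t).1.2.2.2.2.1.length ≤ _
      omega
    · show (r5 δ ob o l0 s0 (Q.ini, [], [], [], [], []) t).1.2.2.2.2.2.length ≤ _
      omega

end Pool.Agent.V8H41.DG
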