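import Mathlib

/-!
# Stack machines and generating machines
-/

set_option autoImplicit false

namespace Pool.Agent.V8H41.DG

/-- The word `w` is generated by a multitape machine which uses at most `s n` cells of its working
tapes before the first `n` letters are written. -/
def Generates {d : ℕ} (w : ℕ → Fin d) (s : ℕ → ℕ) : Prop :=
  ∃ (m k g : ℕ)
    (δM : Fin (m+1) → (Fin k → Fin (g+1)) →
      Fin (m+1) × (Fin k → Fin (g+1)) × (Fin k → Fin 3) × Option (Fin d))
    (conf : ℕ → Fin (m+1) × (Fin k → ℕ → Fin (g+1)) × (Fin k → ℕ) × List (Fin d)),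
    conf 0 = (0, fun _ _ => 0, fun _ => 0, []) ∧
    (∀ t : ℕ, conf (t+1) =
      ((δM (conf t).1 (fun j => (conf t).2.1 j ((conf t).2.2.1 j))).1,
        fun j i => if i = (conf t).2.2.1 j
          then (δM (conf t).1 (fun j' => (conf t).2.1 j' ((conf t).2.2.1 j'))).2.1 j
          else (conf t).2.1 j i,
        fun j => (conf t).2.2.1 j
          + ((δM (conf t).1 (fun j' => (conf t).2.1 j' ((conf t).2.2.1 j'))).2.2.1 j : ℕ) - 1,
        (conf t).2.2.2
          ++ ((δM (conf t).1 (fun j' => (conf t).2.1 j' ((conf t).2.2.1 j'))).2.2.2).toList)) ∧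
    (∀ (t i : ℕ) (h : i < (conf t).2.2.2.length), (conf t).2.2.2[i] = w i) ∧
    (∀ n : ℕ, ∃ t : ℕ, n ≤ (conf t).2.2.2.length) ∧
    (∀ n t : ℕ, 1 ≤ n → (∀ t' < t, (conf t').2.2.2.length < n) →
      ∀ j : Fin k, (conf t).2.2.1 j + 1 ≤ s n)

/-- Actions on a stack. -/
inductive Act (Γ : Type) : Type
  | keep : Act Γ
  | pop : Act Γ
  | push (x : Γ) : Act Γ
  | set (x : Γ) : Act Γ

/-- The effect of an action; the top of the stack is the head of the list. -/
def Act.app {Γ : Type} : Act Γ → List Γ → List Γ
  | Act.keep, l => l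
  | Act.pop, l => l.tail
  | Act.push x, l => x :: l
  | Act.set _, [] => []
  | Act.set x, _ :: t => x :: t

/-- A machine with `k` stacks, which sees the tops of all stacks. -/
abbrev SM (Q Γ : Type) (k d : ℕ) : Type :=
  Q → (Fin k → Option Γ) → Q × (Fin k → Act Γ) × Option (Fin d)

variable {Q Γ : Type} {k d : ℕ}

/-- One step. -/
def sstep (M : SM Q Γ k d) (c : Q × (Fin k → List Γ)) : Q × (Fin k → List Γ) :=
  ((M c.1 fun j => (c.2 j).head?).1, fun j => ((M c.1 fun j => (c.2 j).head?).2.1 j).app (c.2 j))

/-- The output of one step. -/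
def sout (M : SM Q Γ k d) (c : Q × (Fin k → List Γ)) : List (Fin d) :=
  (M c.1 fun j => (c.2 j).head?).2.2.toList

/-- The configuration and the output after `t` steps. -/
def srun (M : SM Q Γ k d) (c : Q × (Fin k → List Γ)) : ℕ → (Q × (Fin k → List Γ)) × List (Fin d)
  | 0 => (c, [])
  | t + 1 => (sstep M (srun M c t).1, (srun M c t).2 ++ sout M (srun M c t).1)

section sim

variable {m g : ℕ} (M : SM Q Γ k d) (eQ : (Q ⊕ Q × (Fin k → Option Γ)) ≃ Fin (m + 1))
  (eG : Γ ≃ Fin g)

/-- Codes of the symbols. -/
def code (o : Option Γ) : Fin (g + 1) := o.elim 0 fun x => (eG x).succ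

/-- Decoding. -/
def decode (a : Fin (g + 1)) : Option Γ := Fin.cases none (fun i => some (eG.symm i)) a

theorem decode_code (o : Option Γ) : decode eG (code eG o) = o := by
  cases o with
  | none => rfl
  | some x => simp [decode, code]

theorem code_ne (x : Γ) : code eG (some x) ≠ 0 := by
  simp [code, Fin.succ_ne_zero]

/-- The symbol written in the first half of a step. -/
def wr : Act Γ → Fin (g + 1) → Fin (g + 1)
  | Act.keep, a => a
  | Act.pop, _ => 0
  | Act.push _, a => a
  | Act.set x, a => if a = 0 then 0 else code eG (some x)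

/-- The move in the first half of a step. -/
def mv : Act Γ → Fin (g + 1) → Fin 3
  | Act.keep, _ => 1
  | Act.pop, a => if a = 0 then 1 else 0
  | Act.push _, _ => 2
  | Act.set _, _ => 1

/-- The symbol to be written in the second half of a step. -/
def pend : Act Γ → Option Γ
  | Act.push x => some x
  | _ => none

/-- The transition function. -/
def dM (q : Fin (m + 1)) (a : Fin k → Fin (g + 1)) :
    Fin (m + 1) × (Fin k → Fin (g + 1)) × (Fin k → Fin 3) × Option (Fin d) :=
  match eQ.symm q with
  | Sum.inl q => (eQ (Sum.inr ((M q fun j => decode eG (a j)).1,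
      fun j => pend ((M q fun j => decode eG (a j)).2.1 j))),
      fun j => wr eG ((M q fun j => decode eG (a j)).2.1 j) (a j),
      fun j => mv ((M q fun j => decode eG (a j)).2.1 j) (a j),
      (M q fun j => decode eG (a j)).2.2)
  | Sum.inr (q, pd) => (eQ (Sum.inl q), fun j => (pd j).elim (a j) fun x => code eG (some x),
      fun _ => 1, none)

/-- The tape of a stack. -/
def tape : List Γ → ℕ → Fin (g + 1)
  | [] => fun _ => 0
  | x :: l => Function.update (tape l) (l.length + 1) (code eG (some x))

theorem tape_gt : ∀ (l : List Γ) (i : ℕ), l.length < i → tape eG l i = 0 := by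
  intro l
  induction l with
  | nil => intro i _; rfl
  | cons x l ih =>
    intro i hi
    rw [List.length_cons] at hi
    show Function.update (tape eG l) (l.length + 1) (code eG (some x)) i = 0
    rw [Function.update_of_ne (by omega)]
    exact ih i (by omega)

theorem tape_top (l : List Γ) : tape eG l l.length = code eG l.head? := by
  cases l with
  | nil => rfl
  | cons x l =>
    show Function.update (tape eG l) (l.length + 1) (code eG (some x)) (l.length + 1) = _
    rw [Function.update_self]
    rfl

/-- The tape and the head after the first half of a step. -/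
def half : Act Γ → List Γ → (ℕ → Fin (g + 1)) × ℕ
  | Act.push _, l => (tape eG l, l.length + 1)
  | a, l => (tape eG (a.app l), (a.app l).length)

theorem half1 (a : Act Γ) (l : List Γ) :
    (fun i => if i = l.length then wr eG a (tape eG l l.length) else tape eG l i) =
      (half eG a l).1 ∧ l.length + (mv a (tape eG l l.length) : ℕ) - 1 = (half eG a l).2 := by
  cases a with
  | keep =>
    refine ⟨?_, ?_⟩
    · funext i
      show (if i = l.length then tape eG l l.length else tape eG l i) = tape eG l i
      split_ifs with h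
      · rw [h]
      · rfl
    · show l.length + 1 - 1 = l.length
      omega
  | pop =>
    cases l with
    | nil =>
      refine ⟨?_, ?_⟩
      · funext i
        show (if i = 0 then (0 : Fin (g + 1)) else tape eG [] i) = tape eG [] i
        split_ifs <;> rfl
      · simp [mv, half, Act.app, tape]
    | cons x l =>
      refine ⟨?_, ?_⟩
      · funext i
        show (if i = l.length + 1 then (0 : Fin (g + 1)) else
          Function.update (tape eG l) (l.length + 1) (code eG (some x)) i) = tape eG l i
        split_ifs with h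
        · rw [h, tape_gt eG l _ (by omega)]
        · rw [Function.update_of_ne h]
      · rw [tape_top]
        simp only [mv, List.head?_cons, code_ne, if_false, half, Act.app, List.length_cons,
          List.tail_cons]
        simp
  | push x =>
    refine ⟨?_, ?_⟩
    · funext i
      show (if i = l.length then tape eG l l.length else tape eG l i) = tape eG l i
      split_ifs with h
      · rw [h]
      · rfl
    · show l.length + 2 - 1 = l.length + 1
      omega
  | set x =>
    cases l with
    | nil =>
      refine ⟨?_, ?_⟩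
      · funext i
        show (if i = 0 then wr eG (Act.set x) 0 else tape eG [] i) = tape eG [] i
        split_ifs with h
        · simp [wr, tape]
        · rfl
      · simp [mv, half, Act.app]
    | cons y l =>
      refine ⟨?_, ?_⟩
      · funext i
        rw [tape_top]
        show (if i = l.length + 1 then wr eG (Act.set x) (code eG (some y)) else
          Function.update (tape eG l) (l.length + 1) (code eG (some y)) i) =
          Function.update (tape eG l) (l.length + 1) (code eG (some x)) i
        split_ifs with h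
        · rw [h, Function.update_self]
          simp [wr, code_ne]
        · rw [Function.update_of_ne h, Function.update_of_ne h]
      · show l.length + 1 + 1 - 1 = l.length + 1
        omega

theorem half2 (a : Act Γ) (l : List Γ) :
    (fun i => if i = (half eG a l).2 then (pend a).elim ((half eG a l).1 (half eG a l).2)
      (fun x => code eG (some x)) else (half eG a l).1 i) = tape eG (a.app l) ∧
      (half eG a l).2 = (a.app l).length := by
  cases a with
  | keep =>
    refine ⟨?_, rfl⟩
    funext i
    show (if i = l.length then tape eG l l.length else tape eG l i) = tape eG l i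
    split_ifs with h
    · rw [h]
    · rfl
  | pop =>
    refine ⟨?_, rfl⟩
    funext i
    show (if i = l.tail.length then tape eG l.tail l.tail.length else tape eG l.tail i) =
      tape eG l.tail i
    split_ifs with h
    · rw [h]
    · rfl
  | push x =>
    refine ⟨?_, rfl⟩
    funext i
    show (if i = l.length + 1 then code eG (some x) else tape eG l i) =
      Function.update (tape eG l) (l.length + 1) (code eG (some x)) i
    split_ifs with h
    · rw [h, Function.update_self]
    · rw [Function.update_of_ne h]
  | set x =>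
    refine ⟨?_, rfl⟩
    funext i
    show (if i = ((Act.set x).app l).length then tape eG ((Act.set x).app l)
      ((Act.set x).app l).length else tape eG ((Act.set x).app l) i) =
      tape eG ((Act.set x).app l) i
    split_ifs with h
    · rw [h]
    · rfl

/-- The configurations of the generating machine. -/
def cf (c : Fin (m + 1) × (Fin k → ℕ → Fin (g + 1)) × (Fin k → ℕ) × List (Fin d)) :
    Fin (m + 1) × (Fin k → ℕ → Fin (g + 1)) × (Fin k → ℕ) × List (Fin d) :=
  ((dM M eQ eG c.1 (fun j => c.2.1 j (c.2.2.1 j))).1,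
    fun j i => if i = c.2.2.1 j
      then (dM M eQ eG c.1 (fun j' => c.2.1 j' (c.2.2.1 j'))).2.1 j
      else c.2.1 j i,
    fun j => c.2.2.1 j + ((dM M eQ eG c.1 (fun j' => c.2.1 j' (c.2.2.1 j'))).2.2.1 j : ℕ) - 1,
    c.2.2.2 ++ ((dM M eQ eG c.1 (fun j' => c.2.1 j' (c.2.2.1 j'))).2.2.2).toList)

/-- The configuration of a stack configuration. -/
def tmOf (c : Q × (Fin k → List Γ)) (o : List (Fin d)) :
    Fin (m + 1) × (Fin k → ℕ → Fin (g + 1)) × (Fin k → ℕ) × List (Fin d) :=
  (eQ (Sum.inl c.1), fun j => tape eG (c.2 j), fun j => (c.2 j).length, o)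

/-- The configuration after the first half of a step. -/
def tmHalf (c : Q × (Fin k → List Γ)) (o : List (Fin d)) :
    Fin (m + 1) × (Fin k → ℕ → Fin (g + 1)) × (Fin k → ℕ) × List (Fin d) :=
  (eQ (Sum.inr ((M c.1 fun j => (c.2 j).head?).1,
      fun j => pend ((M c.1 fun j => (c.2 j).head?).2.1 j))),
    fun j => (half eG ((M c.1 fun j => (c.2 j).head?).2.1 j) (c.2 j)).1,
    fun j => (half eG ((M c.1 fun j => (c.2 j).head?).2.1 j) (c.2 j)).2, o ++ sout M c)

theorem cf1 (c : Q × (Fin k → List Γ)) (o : List (Fin d)) :
    cf M eQ eG (tmOf eQ eG c o) = tmHalf M eQ eG c o := by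
  have h1 : (fun j => decode eG (tape eG (c.2 j) (c.2 j).length)) = fun j => (c.2 j).head? := by
    funext j
    rw [tape_top, decode_code]
  have h2 : dM M eQ eG (eQ (Sum.inl c.1)) (fun j => tape eG (c.2 j) (c.2 j).length) =
      (eQ (Sum.inr ((M c.1 fun j => (c.2 j).head?).1,
      fun j => pend ((M c.1 fun j => (c.2 j).head?).2.1 j))),
      fun j => wr eG ((M c.1 fun j => (c.2 j).head?).2.1 j) (tape eG (c.2 j) (c.2 j).length),
      fun j => mv ((M c.1 fun j => (c.2 j).head?).2.1 j) (tape eG (c.2 j) (c.2 j).length),
      (M c.1 fun j => (c.2 j).head?).2.2) := by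
    unfold dM
    rw [Equiv.symm_apply_apply]
    simp only [h1]
  unfold cf tmOf tmHalf
  simp only [h2]
  refine Prod.ext rfl (Prod.ext ?_ (Prod.ext ?_ rfl))
  · funext j
    exact (half1 eG _ (c.2 j)).1
  · funext j
    exact (half1 eG _ (c.2 j)).2

theorem cf2 (c : Q × (Fin k → List Γ)) (o : List (Fin d)) :
    cf M eQ eG (tmHalf M eQ eG c o) = tmOf eQ eG (sstep M c) (o ++ sout M c) := by
  unfold cf tmHalf tmOf
  simp only [dM, Equiv.symm_apply_apply]
  refine Prod.ext rfl (Prod.ext ?_ (Prod.ext ?_ ?_))
  · funext j
    exact (half2 eG _ (c.2 j)).1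
  · funext j
    simp only
    rw [(half2 eG _ (c.2 j)).2]
    rfl
  · simp

end sim

/-- An enumeration of a finite type starting at a given element. -/
theorem exists_enum (T : Type) [Finite T] (t0 : T) : ∃ (m : ℕ) (e : T ≃ Fin (m + 1)), e t0 = 0 := by
  obtain ⟨n, ⟨e⟩⟩ := Finite.exists_equiv_fin T
  cases n with
  | zero => exact (e t0).elim0
  | succ m =>
    refine ⟨m, e.trans (Equiv.swap (e t0) 0), ?_⟩
    simp

/-- **Stack machines are generating machines.** -/
theorem generates_of_stack [Finite Q] [Finite Γ] (M : SM Q Γ k d) (q0 : Q) (w : ℕ → Fin d)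
    (s : ℕ → ℕ)
    (h1 : ∀ (t i : ℕ) (h : i < (srun M (q0, fun _ => []) t).2.length),
      (srun M (q0, fun _ => []) t).2[i] = w i)
    (h2 : ∀ n : ℕ, ∃ t : ℕ, n ≤ (srun M (q0, fun _ => []) t).2.length)
    (h3 : ∀ n t : ℕ, 1 ≤ n → (∀ t' < t, (srun M (q0, fun _ => []) t').2.length < n) →
      ∀ j : Fin k, ((srun M (q0, fun _ => []) t).1.2 j).length ≤ s n) :
    Generates w (fun n => s n + 2) := by
  obtain ⟨m, eQ, heQ⟩ := exists_enum (Q ⊕ Q × (Fin k → Option Γ)) (Sum.inl q0)
  obtain ⟨g, ⟨eG⟩⟩ := Finite.exists_equiv_fin Γ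
  obtain ⟨r, hr⟩ : ∃ r : ℕ → (Q × (Fin k → List Γ)) × List (Fin d),
    r = srun M (q0, fun _ => []) := ⟨_, rfl⟩
  rw [← hr] at h1 h2 h3
  have hrs : ∀ t, r (t + 1) = (sstep M (r t).1, (r t).2 ++ sout M (r t).1) := by
    intro t
    rw [hr]
    rfl
  obtain ⟨conf, hconf⟩ : ∃ conf : ℕ → Fin (m + 1) × (Fin k → ℕ → Fin (g + 1)) × (Fin k → ℕ) ×
      List (Fin d), conf = fun t => (cf M eQ eG)^[t] (0, fun _ _ => 0, fun _ => 0, []) := ⟨_, rfl⟩
  have hstep : ∀ t, conf (t + 1) = cf M eQ eG (conf t) := by
    intro t
    rw [hconf]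
    exact Function.iterate_succ_apply' _ _ _
  have hc0 : conf 0 = (0, fun _ _ => 0, fun _ => 0, []) := by rw [hconf]; rfl
  have heven : ∀ t, conf (2 * t) = tmOf eQ eG (r t).1 (r t).2 := by
    intro t
    induction t with
    | zero =>
      rw [mul_zero, hc0, hr]
      unfold tmOf srun
      simp only [heQ]
      rfl
    | succ t ih =>
      rw [show 2 * (t + 1) = 2 * t + 1 + 1 by ring, hstep, hstep, ih, cf1, cf2, hrs]
  have hodd : ∀ t, conf (2 * t + 1) = tmHalf M eQ eG (r t).1 (r t).2 := by
    intro t
    rw [hstep, heven, cf1]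
  have hout0 : ∀ t, (conf (2 * t)).2.2.2 = (r t).2 := by
    intro t
    rw [heven]
    rfl
  have hout1 : ∀ t, (conf (2 * t + 1)).2.2.2 = (r (t + 1)).2 := by
    intro t
    rw [hodd, hrs]
    rfl
  refine ⟨m, k, g, dM M eQ eG, conf, hc0, fun t => hstep t, ?_, ?_, ?_⟩
  · intro t i h
    rcases Nat.even_or_odd' t with ⟨u, rfl | rfl⟩
    · simp only [hout0] at h ⊢
      exact h1 u i h
    · simp only [hout1] at h ⊢
      exact h1 (u + 1) i h
  · intro n
    obtain ⟨t, ht⟩ := h2 n
    exact ⟨2 * t, by rw [hout0]; exact ht⟩
  · intro n t hn ht j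
    rcases Nat.even_or_odd' t with ⟨u, rfl | rfl⟩
    · rw [heven]
      show ((r u).1.2 j).length + 1 ≤ s n + 2
      have := h3 n u hn (fun t' ht' => by
        have := ht (2 * t') (by omega)
        rwa [hout0] at this) j
      omega
    · rw [hodd]
      show (half eG ((M (r u).1.1 fun j => ((r u).1.2 j).head?).2.1 j) ((r u).1.2 j)).2 + 1 ≤ s n + 2
      have h4 := h3 n u hn (fun t' ht' => by
        have := ht (2 * t') (by omega)
        rwa [hout0] at this) j
      have h5 : ∀ (a : Act Γ) (l : List Γ), (half eG a l).2 ≤ l.length + 1 := by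
        intro a l
        cases a with
        | keep => exact Nat.le_succ _
        | pop =>
          show l.tail.length ≤ l.length + 1
          rw [List.length_tail]
          omega
        | push x => exact le_rfl
        | set x =>
          cases l with
          | nil => exact Nat.zero_le _
          | cons y l => exact Nat.le_succ _
      have := h5 ((M (r u).1.1 fun j => ((r u).1.2 j).head?).2.1 j) ((r u).1.2 j)
      omega

end Pool.Agent.V8H41.DG
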