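import Pool.Agent.V8H41.DG.Rounds

/-!
# Words generated by iterating a dgsm
-/

set_option autoImplicit false

namespace Pool.Agent.V8H41.DG

/-- The image of a word under the transducer with transitions `δ`, outputs `out` and initial state
`q0`. -/
def dgsm {d p : ℕ} (δ : Fin p → Fin d → Fin p) (q0 : Fin p)
    (out : Fin p → Fin d → List (Fin d)) (u : List (Fin d)) : List (Fin d) :=
  (List.foldl (fun (acc : Fin p × List (Fin d)) (x : Fin d) =>
    (δ acc.1 x, acc.2 ++ out acc.1 x)) (q0, []) u).2

/-- `w` is the limit of the words `τ ^ n (a)`. -/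
def Iterates {d : ℕ} (τ : List (Fin d) → List (Fin d)) (a : Fin d) (w : ℕ → Fin d) : Prop :=
  [a] <+: τ [a] ∧ (∀ N : ℕ, ∃ n : ℕ, N ≤ (τ^[n] [a]).length) ∧
    ∀ (n i : ℕ) (h : i < (τ^[n] [a]).length), (τ^[n] [a])[i] = w i

section

variable {d p : ℕ} {δ : Fin p → Fin d → Fin p} {q0 : Fin p}
  {out : Fin p → Fin d → List (Fin d)} {a : Fin d} {w : ℕ → Fin d}

theorem foldl_eq (u : List (Fin d)) : ∀ (q : Fin p) (l : List (Fin d)),
    List.foldl (fun (acc : Fin p × List (Fin d)) (x : Fin d) =>
      (δ acc.1 x, acc.2 ++ out acc.1 x)) (q, l) u = (dl δ q u, l ++ T δ out q u) := by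
  induction u with
  | nil => intro q l; simp [dl, T]
  | cons x u ih =>
    intro q l
    rw [List.foldl_cons, ih]
    simp [dl, T]

theorem dgsm_eq (u : List (Fin d)) : dgsm δ q0 out u = T δ out q0 u := by
  unfold dgsm
  rw [foldl_eq, List.nil_append]

theorem T_append {S L : Type} (δ : S → L → S) (out : S → L → List L) (u v : List L) :
    ∀ q, T δ out q (u ++ v) = T δ out q u ++ T δ out (dl δ q u) v := by
  induction u with
  | nil => intro q; rfl
  | cons x u ih => intro q; simp [T, dl, ih]

theorem dl_append {S L : Type} (δ : S → L → S) (u v : List L) :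
    ∀ q, dl δ q (u ++ v) = dl δ (dl δ q u) v := by
  induction u with
  | nil => intro q; rfl
  | cons x u ih => intro q; simp [dl, ih]

/-- The words of the stages. -/
def vw (δ : Fin p → Fin d → Fin p) (q0 : Fin p) (out : Fin p → Fin d → List (Fin d)) (a : Fin d) :
    ℕ → List (Fin d) × Fin p
  | 0 => ((out q0 a).tail, δ q0 a)
  | n + 1 => (T δ out (vw δ q0 out a n).2 (vw δ q0 out a n).1,
      dl δ (vw δ q0 out a n).2 (vw δ q0 out a n).1)

theorem out_eq (h : [a] <+: dgsm δ q0 out [a]) : out q0 a = a :: (out q0 a).tail := by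
  rw [dgsm_eq] at h
  have h1 : T δ out q0 [a] = out q0 a := by simp [T]
  rw [h1] at h
  obtain ⟨t, ht⟩ := h
  rw [← ht]
  rfl

theorem stage (h : [a] <+: dgsm δ q0 out [a]) (n : ℕ) :
    (dgsm δ q0 out)^[n + 1] [a] = (dgsm δ q0 out)^[n] [a] ++ (vw δ q0 out a n).1 ∧
      dl δ q0 ((dgsm δ q0 out)^[n] [a]) = (vw δ q0 out a n).2 := by
  induction n with
  | zero =>
    refine ⟨?_, rfl⟩
    show dgsm δ q0 out [a] = [a] ++ (out q0 a).tail
    rw [dgsm_eq]
    have h1 : T δ out q0 [a] = out q0 a := by simp [T]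
    rw [h1]
    exact out_eq h
  | succ n ih =>
    obtain ⟨h1, h2⟩ := ih
    have h3 : (dgsm δ q0 out)^[n + 1] [a] = T δ out q0 ((dgsm δ q0 out)^[n] [a]) := by
      rw [Function.iterate_succ_apply', dgsm_eq]
    refine ⟨?_, ?_⟩
    · have h4 : (dgsm δ q0 out)^[n + 1 + 1] [a] = T δ out q0 ((dgsm δ q0 out)^[n + 1] [a]) := by
        rw [Function.iterate_succ_apply', dgsm_eq]
      rw [h4, h1, T_append, ← h3, h1, h2]
      rfl
    · rw [h1, dl_append, h2]
      rfl

theorem stage_length (h : [a] <+: dgsm δ q0 out [a]) (n : ℕ) :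
    ((dgsm δ q0 out)^[n + 1] [a]).length = ((dgsm δ q0 out)^[n] [a]).length +
      (vw δ q0 out a n).1.length := by
  rw [(stage h n).1, List.length_append]

theorem T_len (hne : ∀ s x, out s x ≠ []) : ∀ (u : List (Fin d)) (q : Fin p),
    u.length ≤ (T δ out q u).length := by
  intro u
  induction u with
  | nil => intro q; exact Nat.zero_le _
  | cons y u ih =>
    intro q
    show u.length + 1 ≤ (out q y ++ T δ out (δ q y) u).length
    rw [List.length_append]
    have h1 := ih (δ q y)
    have h2 : 1 ≤ (out q y).length := List.length_pos_iff.2 (hne q y)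
    omega

theorem vw_mono (hne : ∀ s x, out s x ≠ []) {i j : ℕ} (h : i ≤ j) :
    (vw δ q0 out a i).1.length ≤ (vw δ q0 out a j).1.length := by
  induction h with
  | refl => exact le_rfl
  | step _ ih => exact ih.trans (T_len hne _ _)

theorem tail_ne (h : [a] <+: dgsm δ q0 out [a])
    (hu : ∀ N : ℕ, ∃ n : ℕ, N ≤ ((dgsm δ q0 out)^[n] [a]).length) : (out q0 a).tail ≠ [] := by
  intro h0
  have h1 : dgsm δ q0 out [a] = [a] := by
    rw [dgsm_eq]
    have h1 : T δ out q0 [a] = out q0 a := by simp [T]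
    rw [h1, out_eq h, h0]
  have h2 : ∀ n, (dgsm δ q0 out)^[n] [a] = [a] := by
    intro n
    induction n with
    | zero => rfl
    | succ n ih => rw [Function.iterate_succ_apply', ih, h1]
  obtain ⟨n, hn⟩ := hu 2
  rw [h2] at hn
  simp at hn

/-- The transitions with a new initial state. -/
def δx (δ : Fin p → Fin d → Fin p) (q0 : Fin p) (a : Fin d) :
    Option (Fin p) → Option (Fin d) → Option (Fin p)
  | none, _ => some (δ q0 a)
  | some q, some x => some (δ q x)
  | some q, none => some q

/-- The outputs with a new initial state. -/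
def ox (q0 : Fin p) (out : Fin p → Fin d → List (Fin d)) (a : Fin d) :
    Option (Fin p) → Option (Fin d) → List (Option (Fin d))
  | none, _ => (out q0 a).tail.map some
  | some q, some x => (out q x).map some
  | some _, none => [none]

theorem T_ox (u : List (Fin d)) : ∀ q : Fin p,
    T (δx δ q0 a) (ox q0 out a) (some q) (u.map some) = (T δ out q u).map some := by
  induction u with
  | nil => intro q; rfl
  | cons x u ih =>
    intro q
    show ox q0 out a (some q) (some x) ++
      T (δx δ q0 a) (ox q0 out a) (δx δ q0 a (some q) (some x)) (u.map some) =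
      (out q x ++ T δ out (δ q x) u).map some
    have h1 : δx δ q0 a (some q) (some x) = some (δ q x) := rfl
    rw [h1, ih, List.map_append]
    rfl

theorem dl_ox (u : List (Fin d)) : ∀ q : Fin p,
    dl (δx δ q0 a) (some q) (u.map some) = some (dl δ q u) := by
  induction u with
  | nil => intro q; rfl
  | cons x u ih =>
    intro q
    show dl (δx δ q0 a) (δx δ q0 a (some q) (some x)) (u.map some) = _
    have h1 : δx δ q0 a (some q) (some x) = some (δ q x) := rfl
    rw [h1, ih]
    rfl

/-- **Space for words generated by iterating a dgsm.** -/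
theorem space (hne : ∀ s x, out s x ≠ []) (hw : Iterates (dgsm δ q0 out) a w) (f : ℕ → ℕ)
    (hf : ∀ n, 1 ≤ n → ∃ k, n ≤ ((dgsm δ q0 out)^[k + f n] [a]).length ∧
      ((dgsm δ q0 out)^[k + 1] [a]).length ≤ ((dgsm δ q0 out)^[k] [a]).length + f n) :
    Generates w (fun n => 4 * f n + 4 + 2) := by
  obtain ⟨ha, hu, hl⟩ := hw
  have htl := tail_ne ha hu
  obtain ⟨c, hc⟩ : ∃ c : ℕ, ∀ s x, (ox q0 out a s x).length ≤ c := by
    obtain ⟨c, hc⟩ := (Set.finite_range fun y : Option (Fin p) × Option (Fin d) =>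
      (ox q0 out a y.1 y.2).length).bddAbove
    exact ⟨c, fun s x => hc ⟨(s, x), rfl⟩⟩
  obtain ⟨ob, hob⟩ : ∃ ob : Option (Fin p) → Option (Fin d) → Buf (Option (Fin d)) c,
    ob = fun s x => ⟨ox q0 out a s x, hc s x⟩ := ⟨_, rfl⟩
  have hou : ou ob = ox q0 out a := by rw [hob]; rfl
  have hobne : ∀ q y, (ob q y).1 ≠ [] := by
    intro q y
    rw [hob]
    show ox q0 out a q y ≠ []
    cases q with
    | none =>
      show (out q0 a).tail.map some ≠ []
      exact fun h => htl (List.map_eq_nil_iff.1 h)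
    | some q =>
      cases y with
      | none => simp [ox]
      | some x =>
        show (out q x).map some ≠ []
        exact fun h => hne q x (List.map_eq_nil_iff.1 h)
  have hus : ∀ n, us (δx δ q0 a) ob none none (n + 1) =
      ((vw δ q0 out a n).1.map some, some (vw δ q0 out a n).2) := by
    intro n
    induction n with
    | zero =>
      show (T (δx δ q0 a) (ou ob) none [none], dl (δx δ q0 a) none [none]) = _
      rw [hou]
      refine Prod.ext ?_ rfl
      show ox q0 out a none none ++ [] = _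
      rw [List.append_nil]
      rfl
    | succ n ih =>
      show (T (δx δ q0 a) (ou ob) (us (δx δ q0 a) ob none none (n + 1)).2
        (us (δx δ q0 a) ob none none (n + 1)).1, dl (δx δ q0 a)
        (us (δx δ q0 a) ob none none (n + 1)).2 (us (δx δ q0 a) ob none none (n + 1)).1) = _
      rw [ih, hou]
      simp only
      rw [T_ox, dl_ox]
      rfl
  have hO : ∀ r, O (δx δ q0 a) ob (fun x => x.getD a) none none r = (dgsm δ q0 out)^[r] [a] := by
    intro r
    induction r with
    | zero => rfl
    | succ r ih =>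
      show O (δx δ q0 a) ob (fun x => x.getD a) none none r ++
        (us (δx δ q0 a) ob none none (r + 1)).1.map (fun x => x.getD a) = _
      rw [ih, hus, (stage ha r).1]
      congr 1
      simp only [List.map_map]
      have h1 : (fun x : Option (Fin d) => x.getD a) ∘ some = id := by
        funext x
        rfl
      rw [h1, List.map_id]
  refine generates (δ := δx δ q0 a) (ob := ob) (fun x => x.getD a) none none hobne w ?_ f ?_
  · intro r i h
    have key : ∀ (l l' : List (Fin d)), l = l' → (∀ h' : i < l'.length, l'[i] = w i) →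
        ∀ (h : i < l.length), l[i] = w i := by
      rintro l _ rfl hh h
      exact hh h
    exact key _ _ (hO r) (fun h' => hl r i h') h
  · intro n hn
    obtain ⟨k, h1, h2⟩ := hf n hn
    refine ⟨k, ?_, ?_⟩
    · rw [hO]
      exact h1
    · rw [hus]
      simp only [List.length_map]
      rw [stage_length ha] at h2
      omega

/-- The square root bound. -/
theorem sqrt_bound (hne : ∀ s x, out s x ≠ []) (hw : Iterates (dgsm δ q0 out) a w) (n : ℕ) :
    ∃ k, n ≤ ((dgsm δ q0 out)^[k + (Nat.sqrt n + (out q0 a).tail.length)] [a]).length ∧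
      ((dgsm δ q0 out)^[k + 1] [a]).length ≤ ((dgsm δ q0 out)^[k] [a]).length +
        (Nat.sqrt n + (out q0 a).tail.length) := by
  obtain ⟨ha, hu, -⟩ := hw
  have htl := tail_ne ha hu
  obtain ⟨F, hF⟩ : ∃ F : ℕ → ℕ, F = fun k => ((dgsm δ q0 out)^[k] [a]).length := ⟨_, rfl⟩
  obtain ⟨v, hv⟩ : ∃ v : ℕ → ℕ, v = fun k => (vw δ q0 out a k).1.length := ⟨_, rfl⟩
  obtain ⟨h, hh⟩ : ∃ h, h = Nat.sqrt n + (out q0 a).tail.length := ⟨_, rfl⟩
  have hFs : ∀ k, F (k + 1) = F k + v k := by
    intro k
    rw [hF, hv]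
    exact stage_length ha k
  have hvm : ∀ {i j : ℕ}, i ≤ j → v i ≤ v j := by
    intro i j hij
    rw [hv]
    exact vw_mono hne hij
  have hv0 : v 0 = (out q0 a).tail.length := by rw [hv]; rfl
  have htl1 : 1 ≤ (out q0 a).tail.length := List.length_pos_iff.2 htl
  have hFm : ∀ {i j : ℕ}, i ≤ j → F i ≤ F j := by
    intro i j hij
    induction hij with
    | refl => exact le_rfl
    | step _ ih =>
      rw [hFs]
      exact ih.trans (Nat.le_add_right _ _)
  have hF1 : ∀ k, k + 1 ≤ F k := by
    intro k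
    induction k with
    | zero => rw [hF]; exact le_rfl
    | succ k ih =>
      rw [hFs]
      have := hvm (Nat.zero_le k)
      omega
  have hsum : ∀ k m, F k + m * v k ≤ F (k + m) := by
    intro k m
    induction m with
    | zero => simp
    | succ m ih =>
      rw [← add_assoc, hFs, add_mul, one_mul]
      have := hvm (Nat.le_add_right k m)
      omega
  rw [← hh]
  have hex : ∃ K, n ≤ F K := by
    obtain ⟨K, hK⟩ := hu n
    exact ⟨K, by rw [hF]; exact hK⟩
  classical
  obtain ⟨K, hK, hmin⟩ : ∃ K, n ≤ F K ∧ ∀ K' < K, F K' < n :=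
    ⟨Nat.find hex, Nat.find_spec hex, fun K' h' => not_le.1 (Nat.find_min hex h')⟩
  have goal_iff : ∀ k, (n ≤ F (k + h) ∧ F (k + 1) ≤ F k + h) →
      (n ≤ ((dgsm δ q0 out)^[k + h] [a]).length ∧
      ((dgsm δ q0 out)^[k + 1] [a]).length ≤ ((dgsm δ q0 out)^[k] [a]).length + h) := by
    intro k hk
    rw [hF] at hk
    exact hk
  rcases Nat.lt_or_ge h K with h1 | h1
  · refine ⟨K - h, goal_iff _ ⟨?_, ?_⟩⟩
    · rw [show K - h + h = K by omega]
      exact hK
    · rw [hFs]
      by_contra h2
      push Not at h2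
      have h3 : h + 1 ≤ v (K - h) := by omega
      have h4 := hsum (K - h) (h - 1)
      rw [show K - h + (h - 1) = K - 1 by omega] at h4
      have h5 := hmin (K - 1) (by omega)
      have h6 := hF1 (K - h)
      have h7 : (h - 1) * (h + 1) ≤ (h - 1) * v (K - h) := Nat.mul_le_mul_left _ h3
      have h8 : (Nat.sqrt n + 1) * (Nat.sqrt n + 1) ≤ h * h :=
        Nat.mul_le_mul (by omega) (by omega)
      have h9 := Nat.lt_succ_sqrt n
      have h10 : h * h = (h - 1) * (h + 1) + 1 := by
        obtain ⟨g, rfl⟩ : ∃ g, h = g + 1 := ⟨h - 1, by omega⟩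
        simp only [Nat.add_sub_cancel]
        ring
      have h11 : n < (Nat.sqrt n + 1) * (Nat.sqrt n + 1) := h9
      omega
  · refine ⟨0, goal_iff _ ⟨?_, ?_⟩⟩
    · rw [Nat.zero_add]
      exact hK.trans (hFm h1)
    · rw [hFs, hv0]
      omega

theorem Generates.mono {s s' : ℕ → ℕ} (h : Generates w s) (hs : ∀ n, s n ≤ s' n) :
    Generates w s' := by
  obtain ⟨m, k, g, δM, conf, h1, h2, h3, h4, h5⟩ := h
  exact ⟨m, k, g, δM, conf, h1, h2, h3, h4, fun n t hn ht j => (h5 n t hn ht j).trans (hs n)⟩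

end

end Pool.Agent.V8H41.DG
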